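import Pool.Agent.D0H78.MT.Fin2

/-!
# The index law for Hodge and Tate classes over the motivated classes: assembly
-/

open CategoryTheory AlgebraicGeometry TensorProduct Filter Topology

open scoped ENNReal

universe u v w

namespace Pool.Agent.D0H78.MT

open Module
open Pool.Agent.H914 Pool.Agent.H914.VarClass Pool.Agent.H914.VarClass.Obj
  Pool.Agent.H914.WeilCohomology Pool.Agent.Y133.Half Pool.Agent.R920.MT Pool.Agent.Y121.AH

variable {k : Type u} [Field k] {𝒱 : VarClass k} {ops : CycleOps 𝒱}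

section

variable (T : HodgeTheory ops) (X : 𝒱.Obj)

lemma Uni_span' (n : ℕ) : Uni T X n = Submodule.span T.W.K {x | ∃ j, IsUniversal T.W X n j x} :=
  Uni_eq_span n

lemma finrank_Uni (n : ℕ) : finrank T.W.K (Uni T X n) =
    dimOf T.W {x | ∃ j, IsUniversal T.W X n j x} := by
  rw [Uni_span']; rfl

variable {T X}

lemma universal_of_motivated {n j : ℕ} {x : T.W.H (pw X n)}
    (h : IsMotivated T.W (pw X n) j x) : IsUniversal T.W X n j x :=
  mem_Uni_iff.1 ⟨(motPred T.W).gr h, C_le_Uni n (ClassPred.sp_of (Q := motPred T.W) h)⟩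

lemma hodge_of_universal {n j : ℕ} {x : T.W.H (pw X n)}
    (h : IsUniversal T.W X n j x) : IsHodge T (pw X n) j x :=
  have h1 := mem_Uni_iff.2 h
  Uni_isHodge h1.2 h1.1

lemma motivated_gr {n j : ℕ} {x : T.W.H (pw X n)}
    (h : IsMotivated T.W (pw X n) j x) : x ∈ T.W.gr (pw X n) (2 * j) := (motPred T.W).gr h

lemma Uni_eq_C_iff (n : ℕ) : Uni T X n = (motPred T.W).sys.C (pw X n) ↔
    ∀ j x, IsUniversal T.W X n j x → IsMotivated T.W (pw X n) j x := by
  constructor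
  · intro h j x hx
    have h1 := mem_Uni_iff.2 hx
    have h2 := h1.2
    rw [h] at h2
    exact ClassPred.of_sp (Q := motPred T.W) h2 h1.1
  · intro h
    refine le_antisymm ?_ (C_le_Uni n)
    rw [Uni_eq_span, Submodule.span_le]
    rintro x ⟨j, hx⟩
    exact ClassPred.sp_of (Q := motPred T.W) (h j x hx)

lemma C_eq_span (n : ℕ) : (motPred T.W).sys.C (pw X n) =
    Submodule.span T.W.K {x | ∃ j, IsMotivated T.W (pw X n) j x} := rfl

lemma set_eq {n : ℕ} {L : Type} [Field L] [Algebra T.W.K L] (P : ℕ → T.W.H (pw X n) → Prop) :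
    {y | ∃ c ∈ {x | ∃ j, P j x}, ext T.W L c = y} = {y | ∃ i c, P i c ∧ ext T.W L c = y} := by
  ext y
  constructor
  · rintro ⟨c, ⟨j, h⟩, rfl⟩; exact ⟨j, c, h, rfl⟩
  · rintro ⟨j, c, h, rfl⟩; exact ⟨c, ⟨j, h⟩, rfl⟩

lemma SL_C_eq (G : GaloisAction T.W X) (n : ℕ) : G.SL.C (pw X n) =
    Submodule.span G.V.K {y | ∃ i c, IsMotivated T.W (pw X n) i c ∧ ext T.W G.L c = y} := by
  rw [← set_eq (fun i c => IsMotivated T.W (pw X n) i c)]
  exact bf_span (n := n) {x | ∃ j, IsMotivated T.W (pw X n) j x}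
    (fun n => (motPred T.W).sys.C (pw X n)) (C_eq_span n)

lemma bf_Uni_eq (G : GaloisAction T.W X) (n : ℕ) : Sys.bf G.L (Uni T X) n =
    Submodule.span G.V.K {y | ∃ i c, IsUniversal T.W X n i c ∧ ext T.W G.L c = y} := by
  rw [← set_eq (fun i c => IsUniversal T.W X n i c)]
  exact bf_span (n := n) _ (Uni T X) (Uni_eq_span n)

lemma inv_eq_SL_iff (G : GaloisAction T.W X) : (∀ n, G.act.inv n = G.SL.C (pw X n)) ↔
    G.TateAre fun n j c => IsMotivated T.W (pw X n) j c := by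
  simp only [SL_C_eq]
  exact spanned_iff G (P := fun n j c => IsMotivated T.W (pw X n) j c)
    (fun n i c h => motivated_gr h) (fun n i c h => universal_of_motivated h G)

lemma inv_eq_bf_iff (G : GaloisAction T.W X) :
    (∀ n, G.act.inv n = Sys.bf G.L (Uni T X) n) ↔ G.TateAre (IsUniversal T.W X) := by
  simp only [bf_Uni_eq]
  exact spanned_iff G (P := IsUniversal T.W X)
    (fun n i c h => (mem_Uni_iff.2 h).1) (fun n i c h => h G)

lemma mot_pos [Nontrivial (T.W.H X)] (n : ℕ) : dimBy T.W (IsMotivated T.W) (pw X n) ≠ 0 :=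
  (Sys.finrank_pos_pw (motPred T.W).sys n).ne'

end

/-- The index law for one Hodge theory. -/
theorem main (T : HodgeTheory ops) (X : 𝒱.Obj) [Nontrivial (T.W.H X)] (h u m : ℕ → ℕ)
    (hh : ∀ n, h n = dimBy T.W (IsHodge T) (pw X n))
    (hu : ∀ n, u n = dimOf T.W {x | ∃ j, IsUniversal T.W X n j x})
    (hm : ∀ n, m n = dimBy T.W (IsMotivated T.W) (pw X n)) :
    ∃ c N : ℕ∞, 1 ≤ c ∧ HasIndex u m c ∧ HasIndex h m N ∧ (N = c ∨ N = ⊤) ∧
      (∀ n j x, IsMotivated T.W (pw X n) j x → IsUniversal T.W X n j x) ∧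
      (∀ n j x, IsUniversal T.W X n j x → IsHodge T (pw X n) j x) ∧
      (c = 1 ↔ ∀ n j x, IsUniversal T.W X n j x → IsMotivated T.W (pw X n) j x) ∧
      (c ≠ ⊤ → ∃ (r : ℕ) (d : Fin r → Σ m, T.W.H (pw X m)), (r : ℕ∞) + 1 ≤ c ∧
        (∀ i, ∃ j, IsUniversal T.W X (d i).1 j (d i).2) ∧
        ∀ n j x, IsUniversal T.W X n j x → x ∈ genOver T.W (IsMotivated T.W) X d n) ∧
      (N = 1 ↔ ∀ n j x, IsHodge T (pw X n) j x → IsMotivated T.W (pw X n) j x) ∧
      (N ≠ ⊤ → ∀ n j x, IsHodge T (pw X n) j x → IsUniversal T.W X n j x) ∧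
      ∀ G : GaloisAction T.W X, ∃ N' : ℕ∞, HasIndex G.tateDim m N' ∧ (N' = c ∨ N' = ⊤) ∧
        (N' = 1 ↔ G.TateAre fun n j x => IsMotivated T.W (pw X n) j x) ∧
        (N' ≠ ⊤ → G.TateAre (IsUniversal T.W X) ∧ ∀ n, G.tateDim n = u n) ∧
        (N' ≠ 1 → AtMostHalf m G.tateDim) ∧
        (N ≠ ⊤ → N' ≠ ⊤ → G.TateAre fun n j x => IsHodge T (pw X n) j x) ∧
        (N ≠ ⊤ → N' = ⊤ → HasIndex G.tateDim h ⊤) ∧
        (N = ⊤ → N' ≠ ⊤ → HasIndex h G.tateDim ⊤) := by
  obtain rfl : h = fun n => dimBy T.W (IsHodge T) (pw X n) := funext hh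
  obtain rfl : u = fun n => dimOf T.W {x | ∃ j, IsUniversal T.W X n j x} := funext hu
  obtain rfl : m = fun n => dimBy T.W (IsMotivated T.W) (pw X n) := funext hm
  obtain ⟨c, hc1, hc, hc2, hc3⟩ := uni_law T X
  obtain ⟨N, hN1, hN, hNc, hN2, hN3⟩ := hodge_law T X hc
  have hc' : HasIndex (fun n => dimOf T.W {x | ∃ j, IsUniversal T.W X n j x})
      (fun n => dimBy T.W (IsMotivated T.W) (pw X n)) c := by
    have h1 : (fun n => finrank T.W.K (Uni T X n)) =
        fun n => dimOf T.W {x | ∃ j, IsUniversal T.W X n j x} := funext (finrank_Uni T X)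
    rw [← h1]
    exact hc
  have hHU : N ≠ ⊤ → ∀ n j x, IsHodge T (pw X n) j x → IsUniversal T.W X n j x := by
    intro hN' n j x hx
    have h1 : x ∈ Uni T X n := by
      rw [← hN3 hN' n]
      exact ClassPred.sp_of (Q := hodgePred T) hx
    exact mem_Uni_iff.1 ⟨hx.1, h1⟩
  refine ⟨c, N, hc1, hc', hN, hNc, fun n j x hx => universal_of_motivated hx,
    fun n j x hx => hodge_of_universal hx, ?_, ?_, hN2, hHU, ?_⟩
  · rw [hc2]
    exact forall_congr' fun n => Uni_eq_C_iff n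
  · intro h
    obtain ⟨r, d, h1, h2, h3⟩ := hc3 h
    refine ⟨r, d, h1, h2, fun n j x hx => ?_⟩
    apply ClassPred.genS_le_genOver (motPred T.W) d n
    rw [← h3 n]
    exact (mem_Uni_iff.2 hx).2
  · intro G
    obtain ⟨N', h1, h2, h3, h4, h5⟩ := tate_law G hc
    have h6 : N' ≠ ⊤ → G.TateAre (IsUniversal T.W X) := fun h => (inv_eq_bf_iff G).1 (h5 h)
    have h7 : N' ≠ ⊤ → ∀ n, G.tateDim n = dimOf T.W {x | ∃ j, IsUniversal T.W X n j x} := by
      intro h n
      rw [← finrank_inv, h5 h n, Sys.finrank_bf, finrank_Uni]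
    refine ⟨N', h2, h3, ?_, fun h => ⟨h6 h, h7 h⟩, fun h => atMostHalf_of_index h1 h h2, ?_, ?_, ?_⟩
    · rw [h4]
      exact inv_eq_SL_iff G
    · intro hN' hN''
      have h8 := h6 hN''
      intro n j x
      rw [h8 n j x]
      have h9 : {y | ∃ c, IsUniversal T.W X n j c ∧ ext T.W G.L c = y} =
          {y | ∃ c, IsHodge T (pw X n) j c ∧ ext T.W G.L c = y} := by
        ext y
        constructor
        · rintro ⟨c, hc, rfl⟩; exact ⟨c, hodge_of_universal hc, rfl⟩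
        · rintro ⟨c, hc, rfl⟩; exact ⟨c, hHU hN' n j c hc, rfl⟩
      rw [h9]
    · rintro hN' rfl
      exact HasIndex.top_div (fun n => mot_pos n) h2 hN hN'
    · rintro rfl hN'
      exact HasIndex.top_div (fun n => mot_pos n) hN h2 hN'

end Pool.Agent.D0H78.MT
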