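import Pool.Agent.D0H78.MT.Alg
import Pool.Agent.Y133.Half.PairGen

/-!
# Groups of operators on the cohomology of the powers of a variety
-/

open CategoryTheory AlgebraicGeometry TensorProduct

universe u v w

namespace Pool.Agent.D0H78.MT

open Module
open Pool.Agent.H914 Pool.Agent.H914.VarClass Pool.Agent.H914.VarClass.Obj
  Pool.Agent.H914.WeilCohomology Pool.Agent.Y133.Half

variable {k : Type u} [Field k] {𝒱 : VarClass k} {ops : CycleOps 𝒱}
  {V : WeilCohomology.{u, v} ops} {S : Sys V} {X : 𝒱.Obj}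

/-- The external product of classes on powers of `X`. -/
noncomputable def gl (V : WeilCohomology.{u, v} ops) {m n : ℕ} (x : V.H (pw X m))
    (y : V.H (pw X n)) : V.H (pw X (m + n + 1)) :=
  V.map (pwAdd X m n).inv (xp V x y)

lemma gl_mem_C {m n : ℕ} {x : V.H (pw X m)} {y : V.H (pw X n)} (hx : x ∈ S.C (pw X m))
    (hy : y ∈ S.C (pw X n)) : gl V x y ∈ S.C (pw X (m + n + 1)) :=
  S.map _ (Sys.xp_mem_C S hx hy)

lemma gl_even {m n : ℕ} {x : V.H (pw X m)} {y : V.H (pw X n)} (hx : x ∈ PH V (pw X m) 0)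
    (hy : y ∈ PH V (pw X n) 0) : gl V x y ∈ PH V (pw X (m + n + 1)) 0 := by
  have h : xp V x y ∈ PH V ((pw X m).prod (pw X n)) (0 + 0) := xp_mem hx hy
  rw [add_zero] at h
  exact PH.map (pwAdd X m n).inv h

/-- Linear forms on external products. -/
lemma exists_form {m n : ℕ} (φ : Dual V.K (V.H (pw X m))) (ψ : Dual V.K (V.H (pw X n))) :
    ∃ Φ : Dual V.K (V.H (pw X (m + n + 1))), ∀ x y, Φ (gl V x y) = φ x * ψ y := by
  refine ⟨(LinearMap.mul' V.K V.K ∘ₗ TensorProduct.map φ ψ) ∘ₗ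
    (kappa V (pw X m) (pw X n)).symm.toLinearMap ∘ₗ (V.map (pwAdd X m n).hom).toLinearMap,
    fun x y => ?_⟩
  have h1 : V.map (pwAdd X m n).hom (gl V x y) = xp V x y := by
    rw [gl, ← V.map_comp, Iso.hom_inv_id, V.map_id]
  have h2 : (kappa V (pw X m) (pw X n)).symm (xp V x y) = x ⊗ₜ[V.K] y := by
    rw [LinearEquiv.symm_apply_eq, kappa_tmul]
    rfl
  change (LinearMap.mul' V.K V.K ∘ₗ TensorProduct.map φ ψ)
    ((kappa V (pw X m) (pw X n)).symm (V.map (pwAdd X m n).hom (gl V x y))) = _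
  rw [h1, h2, LinearMap.comp_apply, TensorProduct.map_tmul, LinearMap.mul'_apply]

/-- The exponents of the external powers. -/
def ix (n : ℕ) : ℕ → ℕ
  | 0 => n
  | m + 1 => ix n m + n + 1

/-- The external powers of a class. -/
noncomputable def gp (V : WeilCohomology.{u, v} ops) {n : ℕ} (x : V.H (pw X n)) :
    ∀ m, V.H (pw X (ix n m))
  | 0 => x
  | m + 1 => gl V (gp V x m) x

lemma gp_zero {n : ℕ} (x : V.H (pw X n)) : gp V x 0 = x := rfl

lemma gp_succ {n : ℕ} (x : V.H (pw X n)) (m : ℕ) : gp V x (m + 1) = gl V (gp V x m) x := rfl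

lemma gp_even {n : ℕ} {x : V.H (pw X n)} (hx : x ∈ PH V (pw X n) 0) :
    ∀ m, gp V x m ∈ PH V (pw X (ix n m)) 0
  | 0 => hx
  | m + 1 => gl_even (gp_even hx m) hx

lemma gp_form {n : ℕ} (φ : Dual V.K (V.H (pw X n))) : ∀ m, ∃ Φ : Dual V.K (V.H (pw X (ix n m))),
    ∀ x, Φ (gp V x m) = φ x ^ (m + 1)
  | 0 => ⟨φ, fun x => (pow_one (φ x)).symm⟩
  | m + 1 => by
    obtain ⟨Φ, hΦ⟩ := gp_form φ m
    obtain ⟨Φ', hΦ'⟩ := exists_form Φ φ
    refine ⟨Φ', fun x => (hΦ' (gp V x m) x).trans ?_⟩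
    rw [hΦ, ← pow_succ]

/-- A group `Γ` of operators on the cohomology of the powers of `X` which commute with the
correspondences of the system `S`. -/
structure Act (V : WeilCohomology.{u, v} ops) (S : Sys V) (X : 𝒱.Obj) (Γ : Type w) [Group Γ] where
  /-- the operators -/
  B : Γ → ∀ n, Module.End V.K (V.H (pw X n))
  one : ∀ n x, B 1 n x = x
  mul : ∀ g h n x, B (g * h) n x = B g n (B h n x)
  deg : ∀ g n i, ∀ x ∈ V.gr (pw X n) i, B g n x ∈ V.gr (pw X n) i
  fix : ∀ g n, ∀ c ∈ S.C (pw X n), B g n c = c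
  comm : ∀ g m n, ∀ f ∈ S.Op (pw X m) (pw X n), ∀ x, B g n (f x) = f (B g m x)
  ext : ∀ g m n, ∀ x ∈ PH V (pw X m) 0, ∀ y ∈ PH V (pw X n) 0,
    B g (m + n + 1) (gl V x y) = gl V (B g m x) (B g n y)

namespace Act

variable {Γ : Type w} [Group Γ] (A : Act V S X Γ)

lemma even (g : Γ) {n : ℕ} {b : ℕ} {x : V.H (pw X n)} (hx : x ∈ PH V (pw X n) b) :
    A.B g n x ∈ PH V (pw X n) b := by
  refine PH.ind (p := fun x => A.B g n x ∈ PH V (pw X n) b) ?_ ?_ ?_ hx
  · intro i hi x hx; exact PH.of' hi (A.deg g n i x hx)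
  · rw [map_zero]; exact Submodule.zero_mem _
  · intro x y hx hy; rw [map_add]; exact Submodule.add_mem _ hx hy

lemma gp (g : Γ) {n : ℕ} {x : V.H (pw X n)} (hx : x ∈ PH V (pw X n) 0) :
    ∀ m, A.B g (ix n m) (MT.gp V x m) = MT.gp V (A.B g n x) m
  | 0 => rfl
  | m + 1 => by
    have h := A.ext g (ix n m) n (MT.gp V x m) (gp_even hx m) x hx
    rw [gp g hx m] at h
    exact h

/-- The classes of even degrees which are fixed by a subgroup of finite index. -/
def inv (n : ℕ) : Submodule V.K (V.H (pw X n)) where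
  carrier := {x | x ∈ PH V (pw X n) 0 ∧
    ∃ Δ : Subgroup Γ, Δ.FiniteIndex ∧ ∀ g ∈ Δ, A.B g n x = x}
  add_mem' := by
    rintro x y ⟨hx, Δ, hΔ, h1⟩ ⟨hy, Δ', hΔ', h2⟩
    exact ⟨Submodule.add_mem _ hx hy, Δ ⊓ Δ', inferInstance, fun g hg => by
      rw [map_add, h1 g hg.1, h2 g hg.2]⟩
  zero_mem' := ⟨Submodule.zero_mem _, ⊤, inferInstance, fun g _ => map_zero _⟩
  smul_mem' := by
    rintro r x ⟨hx, Δ, hΔ, h1⟩
    exact ⟨Submodule.smul_mem _ _ hx, Δ, hΔ, fun g hg => by rw [map_smul, h1 g hg]⟩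

lemma mem_inv {n : ℕ} {x : V.H (pw X n)} : x ∈ A.inv n ↔ x ∈ PH V (pw X n) 0 ∧
    ∃ Δ : Subgroup Γ, Δ.FiniteIndex ∧ ∀ g ∈ Δ, A.B g n x = x := Iff.rfl

lemma C_le (n : ℕ) : S.C (pw X n) ≤ A.inv n := fun c hc =>
  ⟨S.even hc, ⊤, inferInstance, fun g _ => A.fix g n c hc⟩

lemma stab : S.Stab X A.inv := by
  rintro m n f hf x ⟨hx, Δ, hΔ, h⟩
  exact ⟨Sys.Op.ev hf 0 x hx, Δ, hΔ, fun g hg => by rw [A.comm g m n f hf, h g hg]⟩

lemma inv_gl {m n : ℕ} {x : V.H (pw X m)} {y : V.H (pw X n)} (hx : x ∈ A.inv m)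
    (hy : y ∈ A.inv n) : gl V x y ∈ A.inv (m + n + 1) := by
  obtain ⟨hx, Δ, hΔ, h1⟩ := hx
  obtain ⟨hy, Δ', hΔ', h2⟩ := hy
  exact ⟨gl_even hx hy, Δ ⊓ Δ', inferInstance, fun g hg => by
    rw [A.ext g m n x hx y hy, h1 g hg.1, h2 g hg.2]⟩

lemma inv_gp {n : ℕ} {x : V.H (pw X n)} (hx : x ∈ A.inv n) : ∀ m, MT.gp V x m ∈ A.inv (ix n m)
  | 0 => hx
  | m + 1 => A.inv_gl (inv_gp hx m) hx

/-- The functions given by the generators. -/
noncomputable def fn {r : ℕ} (c : Fin r → Σ n, V.H (pw X n)) :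
    (V.K × (∀ i, Dual V.K (V.H (pw X (c i).1)))) →ₗ[V.K] (Γ → V.K) where
  toFun p g := p.1 + ∑ i, p.2 i (A.B g _ (c i).2)
  map_add' p q := by
    funext g
    simp only [Prod.fst_add, Prod.snd_add, Pi.add_apply, LinearMap.add_apply,
      Finset.sum_add_distrib]
    ring
  map_smul' a p := by
    funext g
    simp only [Prod.smul_fst, Prod.smul_snd, Pi.smul_apply, LinearMap.smul_apply, smul_eq_mul,
      RingHom.id_apply, mul_add, Finset.mul_sum]

lemma mem_fn {r : ℕ} (c : Fin r → Σ n, V.H (pw X n)) {n : ℕ} {z : V.H (pw X n)}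
    (hz : z ∈ S.genS X c n) (φ : Dual V.K (V.H (pw X n))) :
    (fun g => φ (A.B g n z)) ∈ LinearMap.range (A.fn c) := by
  classical
  let M : Submodule V.K (V.H (pw X n)) :=
    { carrier := {z | (fun g => φ (A.B g n z)) ∈ LinearMap.range (A.fn c)}
      add_mem' := fun {a b} ha hb => by
        have h := Submodule.add_mem (LinearMap.range (A.fn c)) ha hb
        have e : (fun g => φ (A.B g n (a + b))) =
            (fun g => φ (A.B g n a)) + fun g => φ (A.B g n b) := by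
          funext g
          rw [map_add, map_add]
          rfl
        change (fun g => φ (A.B g n (a + b))) ∈ LinearMap.range (A.fn c)
        rw [e]
        exact h
      zero_mem' := by
        have e : (fun g => φ (A.B g n 0)) = 0 := by
          funext g
          rw [map_zero, map_zero]
          rfl
        change (fun g => φ (A.B g n 0)) ∈ LinearMap.range (A.fn c)
        rw [e]
        exact Submodule.zero_mem _
      smul_mem' := fun r a ha => by
        have h := Submodule.smul_mem (LinearMap.range (A.fn c)) r ha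
        have e : (fun g => φ (A.B g n (r • a))) = r • fun g => φ (A.B g n a) := by
          funext g
          rw [map_smul, map_smul]
          rfl
        change (fun g => φ (A.B g n (r • a))) ∈ LinearMap.range (A.fn c)
        rw [e]
        exact h }
  have key : S.genS X c n ≤ M := by
    apply sup_le
    · intro s hs
      refine ⟨(φ s, 0), ?_⟩
      funext g
      change φ s + ∑ i, (0 : Dual V.K (V.H (pw X (c i).1))) (A.B g _ (c i).2) = φ (A.B g n s)
      rw [A.fix g n s hs]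
      simp
    · apply iSup_le
      rintro i _ ⟨f, hf, rfl⟩
      refine ⟨(0, Pi.single i (φ ∘ₗ f)), ?_⟩
      funext g
      change (0 : V.K) + ∑ j, (Pi.single i (φ ∘ₗ f) :
        ∀ j, Dual V.K (V.H (pw X (c j).1))) j (A.B g _ (c j).2) = φ (A.B g n (f (c i).2))
      rw [zero_add, Finset.sum_eq_single i, Pi.single_eq_same, A.comm g _ n f hf]
      · rfl
      · intro j _ hj
        rw [Pi.single_eq_of_ne hj]
        rfl
      · intro h
        exact absurd (Finset.mem_univ i) h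
  exact key hz

/-- **Finite orbits.** If all external powers of `x` are generated by finitely many classes, then
`x` is fixed by a subgroup of finite index. -/
theorem mem_inv_of_genS {r : ℕ} (c : Fin r → Σ n, V.H (pw X n)) {n : ℕ} {x : V.H (pw X n)}
    (hx : x ∈ PH V (pw X n) 0) (h : ∀ m, MT.gp V x m ∈ S.genS X c (ix n m)) : x ∈ A.inv n := by
  refine ⟨hx, exists_finiteIndex (fun g => A.B g n) (A.one n) (fun g h x => A.mul g h n x) ?_⟩
  refine finite_range_of_forms (E := V.K) _ fun φ => ?_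
  refine finite_range_of_powers _ (LinearMap.range (A.fn c)) fun m => ?_
  obtain ⟨Φ, hΦ⟩ := gp_form φ m
  have h1 := A.mem_fn c (h m) Φ
  have e : (fun g => Φ (A.B g (ix n m) (MT.gp V x m))) =
      (fun g => φ (A.B g n x)) ^ (m + 1) := by
    funext g
    rw [A.gp g hx m, hΦ]
    rfl
  rw [← e]
  exact h1

end Act

end Pool.Agent.D0H78.MT
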