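import Mathlib

/-!
# Finite orbits from finite-dimensional spaces of functions
-/

namespace Pool.Agent.D0H78.MT

section Fun

variable {E : Type*} [Field E] {Γ : Type*}

/-- A function whose powers span a finite-dimensional space takes finitely many values. -/
lemma finite_range_of_powers (f : Γ → E) (O : Submodule E (Γ → E)) [FiniteDimensional E O]
    (h : ∀ m : ℕ, f ^ (m + 1) ∈ O) : (Set.range f).Finite := by
  classical
  have hmem : ∀ p : Polynomial E, (fun g => f g * p.eval (f g)) ∈ O := by
    intro p
    induction p using Polynomial.induction_on' with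
    | add p q hp hq =>
      have h1 : (fun g => f g * (p + q).eval (f g)) =
          (fun g => f g * p.eval (f g)) + fun g => f g * q.eval (f g) := by
        funext g
        simp [mul_add]
      rw [h1]
      exact O.add_mem hp hq
    | monomial n a =>
      have h1 : (fun g => f g * (Polynomial.monomial n a).eval (f g)) = a • f ^ (n + 1) := by
        funext g
        change f g * (Polynomial.monomial n a).eval (f g) = a * (f g) ^ (n + 1)
        rw [Polynomial.eval_monomial]
        ring
      rw [h1]
      exact O.smul_mem _ (h n)
  let Ψ : Polynomial E →ₗ[E] O :=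
    { toFun := fun p => ⟨fun g => f g * p.eval (f g), hmem p⟩
      map_add' := fun p q => by
        apply Subtype.ext
        funext g
        simp [mul_add]
      map_smul' := fun a p => by
        apply Subtype.ext
        funext g
        simp only [Polynomial.eval_smul, smul_eq_mul, RingHom.id_apply, Submodule.coe_smul,
          Pi.smul_apply]
        ring }
  have hninj : ¬ Function.Injective Ψ := by
    intro hinj
    have h1 : Module.Finite E (Polynomial E) := Module.Finite.of_injective Ψ hinj
    exact Polynomial.not_finite h1
  rw [← LinearMap.ker_eq_bot, LinearMap.ker_eq_bot'] at hninj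
  push Not at hninj
  obtain ⟨p, hp, hp0⟩ := hninj
  have h2 : ∀ g, (Polynomial.X * p).IsRoot (f g) := by
    intro g
    have h3 := congrFun (congrArg Subtype.val hp) g
    have h4 : f g * p.eval (f g) = 0 := h3
    rw [Polynomial.IsRoot, Polynomial.eval_mul, Polynomial.eval_X, h4]
  have h5 : (Polynomial.X * p : Polynomial E) ≠ 0 := mul_ne_zero Polynomial.X_ne_zero hp0
  refine (Polynomial.finite_setOfPred_isRoot h5).subset ?_
  rintro _ ⟨g, rfl⟩
  exact h2 g

end Fun

section Orbit

variable {E : Type*} [Field E] {V : Type*} [AddCommGroup V] [Module E V] [FiniteDimensional E V]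
  {Γ : Type*} [Group Γ]

/-- A family of vectors has finitely many members if all linear forms take finitely many values on
it. -/
lemma finite_range_of_forms (v : Γ → V) (h : ∀ φ : Module.Dual E V, (Set.range fun g => φ (v g)).Finite) :
    (Set.range v).Finite := by
  classical
  let b := Module.finBasis E V
  have h1 : (Set.range fun g => fun i => b.coord i (v g)).Finite := by
    have h2 : {f : Fin (Module.finrank E V) → E |
        ∀ i, f i ∈ Set.range fun g => b.coord i (v g)}.Finite :=
      Set.Finite.pi' fun i => h (b.coord i)
    refine h2.subset ?_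
    rintro _ ⟨g, rfl⟩ i
    exact ⟨g, rfl⟩
  have h3 : (Set.range fun g => b.equivFun (v g)).Finite := by
    refine h1.subset ?_
    rintro _ ⟨g, rfl⟩
    exact ⟨g, rfl⟩
  have h4 : Set.range v = b.equivFun.symm '' (Set.range fun g => b.equivFun (v g)) := by
    ext x
    constructor
    · rintro ⟨g, rfl⟩
      exact ⟨_, ⟨g, rfl⟩, b.equivFun.symm_apply_apply _⟩
    · rintro ⟨_, ⟨g, rfl⟩, rfl⟩
      exact ⟨g, (b.equivFun.symm_apply_apply _).symm⟩
  rw [h4]
  exact h3.image _

omit [FiniteDimensional E V] in
/-- The stabilizer of a vector with a finite orbit has finite index. -/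
lemma exists_finiteIndex (B : Γ → Module.End E V) (h1 : ∀ x, B 1 x = x)
    (hmul : ∀ g h x, B (g * h) x = B g (B h x)) {x : V} (hx : (Set.range fun g => B g x).Finite) :
    ∃ Δ : Subgroup Γ, Δ.FiniteIndex ∧ ∀ g ∈ Δ, B g x = x := by
  let Δ : Subgroup Γ :=
    { carrier := {g | B g x = x}
      mul_mem' := fun {a b} ha hb => by
        change B (a * b) x = x
        rw [hmul, show B b x = x from hb, show B a x = x from ha]
      one_mem' := h1 x
      inv_mem' := fun {a} ha => by
        change B a⁻¹ x = x
        have h2 : B a⁻¹ (B a x) = x := by rw [← hmul, inv_mul_cancel, h1]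
        rwa [show B a x = x from ha] at h2 }
  refine ⟨Δ, ?_, fun g hg => hg⟩
  have hfin : Finite (Set.range fun g => B g x) := hx
  have key : ∀ a b : Γ, a⁻¹ * b ∈ Δ ↔ B a x = B b x := by
    intro a b
    constructor
    · intro h
      have h2 : B (a⁻¹ * b) x = x := h
      calc B a x = B a (B (a⁻¹ * b) x) := by rw [h2]
        _ = B b x := by rw [← hmul, mul_inv_cancel_left]
    · intro h
      change B (a⁻¹ * b) x = x
      rw [hmul, ← h, ← hmul, inv_mul_cancel, h1]
  let F : Γ ⧸ Δ → Set.range fun g => B g x := Quotient.lift (fun g => ⟨B g x, g, rfl⟩) (by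
    intro a b hab
    apply Subtype.ext
    exact (key a b).1 (QuotientGroup.leftRel_apply.1 hab))
  have hF : Function.Injective F := by
    intro a b
    induction a using Quotient.inductionOn with | _ a
    induction b using Quotient.inductionOn with | _ b
    intro h
    have h2 : B a x = B b x := congrArg Subtype.val h
    exact Quotient.sound (QuotientGroup.leftRel_apply.2 ((key a b).2 h2))
  have : Finite (Γ ⧸ Δ) := Finite.of_injective F hF
  exact Subgroup.finiteIndex_of_finite_quotient

end Orbit

end Pool.Agent.D0H78.MT
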