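import Pool.Agent.R920.MT.Defs
import Pool.Agent.Y121.AHS.Defs
import Pool.Agent.Y133.Half.PairDefs
import Pool.Agent.Y133.Half.PwDefs

/-!
# Tate classes on the powers of a variety with a Hodge theory: definitions
-/

open CategoryTheory AlgebraicGeometry TensorProduct

universe u

namespace Pool.Agent.D0H78.MT

open Pool.Agent.H914 Pool.Agent.H914.VarClass Pool.Agent.H914.VarClass.Obj
  Pool.Agent.H914.WeilCohomology Pool.Agent.R920.MT
open Pool.Agent.Y133.Half (pw)

variable {k : Type u} [Field k] {𝒱 : VarClass k} {ops : CycleOps 𝒱}

/-- The morphism is one of the projections of the product `pw X n` of `n + 1` copies of `X` to its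
factors. -/
inductive IsProj (X : 𝒱.Obj) : (n : ℕ) → (pw X n ⟶ X) → Prop
  | one : IsProj X 0 (𝟙 X)
  | last (n : ℕ) : IsProj X (n + 1) (snd (pw X n) X)
  | step (n : ℕ) (p : pw X n ⟶ X) : IsProj X n p → IsProj X (n + 1) (fst (pw X n) X ≫ p)

/-- The class `1 ⊗ c` in the cohomology with coefficients extended to `L`. -/
noncomputable def ext (W : WeilCohomology.{u, 0} ops) (L : Type) [Field L] [Algebra W.K L]
    {X : 𝒱.Obj} (c : W.H X) : (baseW W L).H X := (1 : L) ⊗ₜ[W.K] c

/-- An action of a group `Γ` (the Galois group of a finitely generated field of definition of `X`) on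
the cohomology, with coefficients extended to a field `L` which can be embedded into the complex
numbers (`L = ℚ_ℓ`, by the comparison isomorphism with `ℓ`-adic cohomology), of all powers of `X`:
the group acts by automorphisms of the graded algebras, compatibly with the projections to the
factors, and multiplies the orientations and the motivated classes by powers of a character `χ` (the
cyclotomic character: the Tate twists are suppressed). All the motivated classes on the powers of
`X` are supposed to be defined over the ground field. -/
structure GaloisAction (W : WeilCohomology.{u, 0} ops) (X : 𝒱.Obj) where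
  /-- the field of coefficients -/
  L : Type
  [field : Field L]
  [alg : Algebra W.K L]
  emb : Nonempty (L →+* ℂ)
  /-- the group -/
  Γ : Type
  [group : Group Γ]
  /-- the cyclotomic character -/
  χ : Γ →* (baseW W L).Kˣ
  /-- the action on the cohomology of the product of `n + 1` copies of `X` -/
  ρ : ∀ n, Γ →* ((baseW W L).H (pw X n) ≃ₐ[(baseW W L).K] (baseW W L).H (pw X n))
  degree : ∀ g n i, ∀ x ∈ (baseW W L).gr (pw X n) i, ρ n g x ∈ (baseW W L).gr (pw X n) i
  trace : ∀ g n x, (baseW W L).tr (pw X n) (ρ n g x) =
    (χ g : (baseW W L).K) ^ (pw X n).dim * (baseW W L).tr (pw X n) x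
  proj : ∀ g n p, IsProj X n p → ∀ x, ρ n g ((baseW W L).map p x) = (baseW W L).map p (ρ 0 g x)
  motivated : ∀ g n j c, IsMotivated W (pw X n) j c →
    ρ n g (ext W L c) = (χ g : (baseW W L).K) ^ j • ext W L c

attribute [instance] GaloisAction.field GaloisAction.alg GaloisAction.group

namespace GaloisAction

variable {W : WeilCohomology.{u, 0} ops} {X : 𝒱.Obj} (G : GaloisAction W X)

/-- The cohomology theory with coefficients in `L`. -/
noncomputable abbrev V : WeilCohomology.{u, 0} ops := baseW W G.L

/-- The Tate classes of codimension `j` on the product of `n + 1` copies of `X`: the classes of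
degree `2 j` which are multiplied by `χ g ^ j` by all elements `g` of a subgroup of finite index. -/
def IsTate (n j : ℕ) (x : G.V.H (pw X n)) : Prop :=
  x ∈ G.V.gr (pw X n) (2 * j) ∧ ∃ Δ : Subgroup G.Γ, Δ.FiniteIndex ∧
    ∀ g ∈ Δ, G.ρ n g x = (G.χ g : G.V.K) ^ j • x

/-- The number of linearly independent Tate classes (of all codimensions) on the product of `n + 1`
copies of `X`. -/
noncomputable def tateDim (n : ℕ) : ℕ := Set.finrank G.V.K {x | ∃ j, G.IsTate n j x}

/-- The Tate classes are exactly the linear combinations, with coefficients in `L`, of the classes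
`1 ⊗ c` where `c` has the property `P` (`P n j c` for classes of codimension `j` on the product of
`n + 1` copies of `X`). -/
def TateAre (P : ∀ n, ℕ → W.H (pw X n) → Prop) : Prop :=
  ∀ n j x, G.IsTate n j x ↔ x ∈ Submodule.span G.V.K {y | ∃ c, P n j c ∧ ext W G.L c = y}

end GaloisAction

/-- The class `c` of codimension `j` on the product of `n + 1` copies of `X` is universal: it is a
Tate class for all actions, of all groups and with all coefficients, in the sense of
`GaloisAction`. These actions are the homomorphisms to the groups of points of the motivic Galois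
group of `X`, and the universal classes are the classes which are fixed by its identity
component. -/
def IsUniversal (W : WeilCohomology.{u, 0} ops) (X : 𝒱.Obj) (n j : ℕ) (c : W.H (pw X n)) : Prop :=
  ∀ G : GaloisAction W X, G.IsTate n j (ext W G.L c)

end Pool.Agent.D0H78.MT
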