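import Pool.Agent.D0H78.MT.Hdg

/-!
# Descent of the coefficients
-/

open CategoryTheory AlgebraicGeometry TensorProduct

universe u v w

namespace Pool.Agent.D0H78.MT

open Module
open Pool.Agent.H914 Pool.Agent.H914.VarClass Pool.Agent.H914.VarClass.Obj
  Pool.Agent.H914.WeilCohomology Pool.Agent.Y133.Half Pool.Agent.R920.MT Pool.Agent.Y121.AH

variable {k : Type u} [Field k] {𝒱 : VarClass k} {ops : CycleOps 𝒱} {T : HodgeTheory ops}
  {L : Type} [Field L] [Algebra T.W.K L] {X : 𝒱.Obj}

/-- **Descent.** If all conjugates of a class lie in a subspace of the complex cohomology, then it is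
a linear combination of rational classes which lie in the subspace. -/
lemma mem_span_of_conj (M : Submodule (CW T).K ((CW T).H X)) (τ : L →+* ℂ)
    {w : (baseW T.W L).H X}
    (h : ∀ g : ℂ ≃+* ℂ, psi T.W (ratAlg T (g.toRingHom.comp τ)) X w ∈ M) :
    w ∈ Submodule.span (baseW T.W L).K {x | ∃ c, em T.W ℂ c ∈ M ∧ em T.W L c = x} := by
  classical
  let b := Basis.ofVectorSpace T.W.K L
  have hw0 : ∃ f : (Basis.ofVectorSpaceIndex T.W.K L) →₀ T.W.H X,
      (f.sum fun i m => b i ⊗ₜ[T.W.K] m) = (w : L ⊗[T.W.K] T.W.H X) :=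
    TensorProduct.eq_repr_basis_left b w
  obtain ⟨f, hf⟩ := hw0
  have hf' : w = ∑ i ∈ f.support, (show (baseW T.W L).K from b i) • em T.W L (f i) := by
    rw [← hf, Finsupp.sum]
    exact Finset.sum_congr rfl fun i _ => tmul_eq (W := T.W) (b i) (f i)
  have key : ∀ i ∈ f.support, em T.W ℂ (f i) ∈ M := by
    intro i hi
    by_contra hc
    obtain ⟨φ, hφ, hφp⟩ := Submodule.exists_dual_map_eq_bot_of_notMem hc inferInstance
    apply hφ
    refine aut_indep (indep_basis b τ) _ f.support rfl (fun i => φ (em T.W ℂ (f i))) ?_ i hi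
    intro g
    have h1 : φ (psi T.W (ratAlg T (g.toRingHom.comp τ)) X w) = 0 := by
      have h2 := Submodule.mem_map_of_mem (f := φ) (h g)
      rw [hφp, Submodule.mem_bot] at h2
      exact h2
    rw [hf', map_sum, map_sum] at h1
    refine Eq.trans (Finset.sum_congr rfl fun i _ => ?_) h1
    have h3 : φ (psi T.W (ratAlg T (g.toRingHom.comp τ)) X
        ((show (baseW T.W L).K from b i) • em T.W L (f i))) =
        kap T.W (ratAlg T (g.toRingHom.comp τ)) (show (baseW T.W L).K from b i) *
          φ (em T.W ℂ (f i)) := by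
      rw [psi_smul, psi_em, map_smul, smul_eq_mul]
    refine Eq.trans ?_ h3.symm
    exact mul_comm (φ (em T.W ℂ (f i)) : ℂ) (g (τ (b i)))
  rw [hf']
  exact Submodule.sum_mem _ fun i hi => Submodule.smul_mem _ _
    (Submodule.subset_span ⟨_, key i hi, rfl⟩)

/-- The components of a class. -/
lemma sum_proj_eq (V : WeilCohomology.{u, v} ops) (x : V.H X) :
    ∑ i ∈ Finset.range (2 * X.dim + 1), H914.proj (V.isInternal X) i x = x := by
  have h := sum_proj (V.isInternal X) (N := 2 * X.dim + 1)
    (fun i hi => V.gr_eq_bot X i (by omega))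
  have h2 := congrArg (fun f => f x) h
  simpa using h2

lemma proj_odd {V : WeilCohomology.{u, v} ops} {x : V.H X} (hx : x ∈ PH V X 0) {i : ℕ}
    (hi : i % 2 = 1) : H914.proj (V.isInternal X) i x = 0 := by
  refine PH.ind (p := fun x => H914.proj (V.isInternal X) i x = 0) ?_ ?_ ?_ hx
  · intro l hl x hx
    exact proj_ne _ hx (by omega)
  · rw [map_zero]
  · intro a b ha hb; rw [map_add, ha, hb, add_zero]

lemma em_proj {W : WeilCohomology.{u, 0} ops} {L : Type} [Field L] [Algebra W.K L] (i : ℕ)
    (x : W.H X) : em W L (H914.proj (W.isInternal X) i x) =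
      H914.proj ((baseW W L).isInternal X) i (em W L x) := by
  refine gr_induction (W.isInternal X) (p := fun x => em W L (H914.proj (W.isInternal X) i x) =
      H914.proj ((baseW W L).isInternal X) i (em W L x)) ?_ ?_ x
  · intro l x hx
    by_cases hl : l = i
    · subst hl
      rw [proj_same _ hx, proj_same _ (em_gr hx)]
    · rw [proj_ne _ hx hl, proj_ne _ (em_gr hx) hl, em_zero]
  · intro a b ha hb; rw [map_add, em_add, ha, hb, em_add, map_add]

end Pool.Agent.D0H78.MT
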