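import Pool.Agent.D0H78.MT.Main
import Pool.Agent.Y121.AHS.Conv

/-!
# Translation of the conclusions
-/

open CategoryTheory AlgebraicGeometry TensorProduct Filter Topology

open scoped ENNReal

universe u v w

namespace Pool.Agent.D0H78.MT

open Module
open Pool.Agent.H914 Pool.Agent.H914.VarClass Pool.Agent.H914.VarClass.Obj
  Pool.Agent.H914.WeilCohomology Pool.Agent.Y133.Half Pool.Agent.R920.MT Pool.Agent.Y121.AH

variable {k : Type u} [Field k] {𝒱 : VarClass k} {ops : CycleOps 𝒱}

/-- If `t / m` tends to infinity and `h / m` has a finite positive limit, then `t / h` tends to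
infinity. -/
lemma HasIndex.top_div {t h m : ℕ → ℕ} {N : ℕ∞} (hm : ∀ n, m n ≠ 0) (ht : HasIndex t m ⊤)
    (hh : HasIndex h m N) (hN : N ≠ ⊤) : HasIndex t h ⊤ := by
  have h1 : Tendsto (fun n => ((t n : ℝ≥0∞) / m n) / ((h n : ℝ≥0∞) / m n)) atTop
      (𝓝 (((⊤ : ℕ∞) : ℝ≥0∞) / (N : ℝ≥0∞))) := by
    refine ENNReal.Tendsto.div ht (Or.inl (by simp)) hh (Or.inl ?_)
    intro h
    exact hN ((ENat.toENNReal_eq_top).1 h)
  have h2 : ((⊤ : ℕ∞) : ℝ≥0∞) / (N : ℝ≥0∞) = ((⊤ : ℕ∞) : ℝ≥0∞) := by
    rw [ENat.toENNReal_top]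
    exact ENNReal.top_div_of_ne_top (fun h => hN ((ENat.toENNReal_eq_top).1 h))
  rw [h2] at h1
  refine h1.congr fun n => ?_
  have hm0 : (m n : ℝ≥0∞) ≠ 0 := by exact_mod_cast hm n
  have hmt : (m n : ℝ≥0∞) ≠ ⊤ := ENNReal.natCast_ne_top _
  rw [ENNReal.div_eq_inv_mul (a := (h n : ℝ≥0∞)), ENNReal.div_eq_inv_mul, ENNReal.mul_inv
    (Or.inr (ENNReal.natCast_ne_top _)) (Or.inl (ENNReal.inv_ne_top.2 hm0)), inv_inv,
    ENNReal.div_eq_inv_mul]
  rw [mul_comm (m n : ℝ≥0∞), mul_assoc, ← mul_assoc (m n : ℝ≥0∞), ENNReal.mul_inv_cancel hm0 hmt,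
    one_mul, ENNReal.div_eq_inv_mul]

variable {T : HodgeTheory ops} {X : 𝒱.Obj} (G : GaloisAction T.W X)

/-- Homogeneous members of a span of homogeneous classes. -/
lemma mem_span_hom {n j : ℕ} {P : ℕ → T.W.H (pw X n) → Prop}
    (hP : ∀ i c, P i c → c ∈ T.W.gr (pw X n) (2 * i)) {x : G.V.H (pw X n)}
    (hx : x ∈ G.V.gr (pw X n) (2 * j))
    (h : x ∈ Submodule.span G.V.K {y | ∃ i c, P i c ∧ ext T.W G.L c = y}) :
    x ∈ Submodule.span G.V.K {y | ∃ c, P j c ∧ ext T.W G.L c = y} := by
  have key : ∀ y ∈ Submodule.span G.V.K {y | ∃ i c, P i c ∧ ext T.W G.L c = y},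
      H914.proj (G.V.isInternal (pw X n)) (2 * j) y ∈
        Submodule.span G.V.K {y | ∃ c, P j c ∧ ext T.W G.L c = y} := by
    intro y hy
    induction hy using Submodule.span_induction with
    | mem y hy =>
      obtain ⟨i, c, hc, rfl⟩ := hy
      have hg : ext T.W G.L c ∈ G.V.gr (pw X n) (2 * i) := em_gr (hP i c hc)
      by_cases hij : i = j
      · subst hij
        rw [proj_same _ hg]
        exact Submodule.subset_span ⟨c, hc, rfl⟩
      · rw [proj_ne _ hg (by omega)]
        exact Submodule.zero_mem _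
    | zero => rw [map_zero]; exact Submodule.zero_mem _
    | add a b _ _ ha hb => rw [map_add]; exact Submodule.add_mem _ ha hb
    | smul r a _ ha => rw [map_smul]; exact Submodule.smul_mem _ r ha
  have := key x h
  rwa [proj_same _ hx] at this

/-- The criterion for the Tate classes to be spanned by classes with some property. -/
lemma spanned_iff {P : ∀ n, ℕ → T.W.H (pw X n) → Prop}
    (hP : ∀ n i c, P n i c → c ∈ T.W.gr (pw X n) (2 * i))
    (hT : ∀ n i c, P n i c → G.IsTate n i (ext T.W G.L c)) :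
    (∀ n, G.act.inv n = Submodule.span G.V.K {y | ∃ i c, P n i c ∧ ext T.W G.L c = y}) ↔
      ∀ n j x, G.IsTate n j x ↔
        x ∈ Submodule.span G.V.K {y | ∃ c, P n j c ∧ ext T.W G.L c = y} := by
  constructor
  · intro h n j x
    constructor
    · intro hx
      obtain ⟨h1, h2⟩ := G.isTate_iff.1 hx
      rw [h n] at h2
      exact mem_span_hom G (hP n) h1 h2
    · intro hx
      refine G.isTate_iff.2 ⟨?_, ?_⟩
      · refine (Submodule.span_le.2 ?_) hx
        rintro _ ⟨c, hc, rfl⟩
        exact em_gr (hP n j c hc)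
      · refine (Submodule.span_le.2 ?_) hx
        rintro _ ⟨c, hc, rfl⟩
        exact (G.isTate_iff.1 (hT n j c hc)).2
  · intro h n
    apply le_antisymm
    · rw [inv_eq_span, Submodule.span_le]
      rintro x ⟨j, hx⟩
      refine (Submodule.span_mono ?_) ((h n j x).1 hx)
      rintro _ ⟨c, hc, rfl⟩
      exact ⟨j, c, hc, rfl⟩
    · rw [Submodule.span_le]
      rintro _ ⟨i, c, hc, rfl⟩
      exact (G.isTate_iff.1 (hT n i c hc)).2

/-- The base change of a span. -/
lemma bf_span {n : ℕ} {L : Type} [Field L] [Algebra T.W.K L] (s : Set (T.W.H (pw X n)))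
    (F : ∀ n, Submodule T.W.K (T.W.H (pw X n))) (hF : F n = Submodule.span T.W.K s) :
    Sys.bf L F n = Submodule.span (baseW T.W L).K {y | ∃ c ∈ s, ext T.W L c = y} := by
  apply le_antisymm
  · intro x hx
    refine base_induction (P := fun x : L ⊗[T.W.K] T.W.H (pw X n) =>
      (show (baseW T.W L).H (pw X n) from x) ∈
        Submodule.span (baseW T.W L).K {y | ∃ c ∈ s, ext T.W L c = y}) ?_ ?_ ?_ hx
    · exact Submodule.zero_mem _
    · intro x y hx hy; exact Submodule.add_mem _ hx hy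
    · intro l a ha
      have h2 : em T.W L a ∈ Submodule.span (baseW T.W L).K {y | ∃ c ∈ s, ext T.W L c = y} := by
        rw [hF] at ha
        induction ha using Submodule.span_induction with
        | mem y hy => exact Submodule.subset_span ⟨y, hy, rfl⟩
        | zero => rw [em_zero]; exact Submodule.zero_mem _
        | add a b _ _ ha hb => rw [em_add]; exact Submodule.add_mem _ ha hb
        | smul r a _ ha => rw [em_smul]; exact Submodule.smul_mem _ _ ha
      have h1 := tmul_eq (W := T.W) (L := L) l a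
      have h3 := Submodule.smul_mem _ (show (baseW T.W L).K from l) h2
      exact Eq.mpr (congrArg (fun x => x ∈ Submodule.span (baseW T.W L).K
        {y | ∃ c ∈ s, ext T.W L c = y}) h1) h3
  · rw [Submodule.span_le]
    rintro _ ⟨c, hc, rfl⟩
    refine Submodule.tmul_mem_baseChange_of_mem (1 : L) (p := F n) ?_
    rw [hF]
    exact Submodule.subset_span hc

end Pool.Agent.D0H78.MT
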