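import Pool.Agent.D0H78.MT.Real

/-!
# The extension of the coefficients of a group of operators
-/

open CategoryTheory AlgebraicGeometry TensorProduct

universe u v w

namespace Pool.Agent.D0H78.MT

open Module
open Pool.Agent.H914 Pool.Agent.H914.VarClass Pool.Agent.H914.VarClass.Obj
  Pool.Agent.H914.WeilCohomology Pool.Agent.Y133.Half
open Pool.Agent.Y121.AH (em psi kap psi_smul psi_gr psi_map psi_push psi_em psi_tmul tmul_eq
  em_add em_zero em_smul em_mul em_map em_push em_gr ex tmul_ind)

variable {k : Type u} [Field k] {𝒱 : VarClass k} {ops : CycleOps 𝒱}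
  {W : WeilCohomology.{u, 0} ops} {L M : Type} [Field L] [Field M] [Algebra W.K L]
  [Algebra W.K M] {X Y Z : 𝒱.Obj} {S : Sys W} (τ : L →ₐ[W.K] M)

lemma kap_ex (r : W.K) : kap W τ (ex W L r) = ex W M r := τ.commutes r

/-- The operator on the rational classes. -/
noncomputable def upK (F : Module.End (baseW W L).K ((baseW W L).H Z)) :
    W.H Z →ₗ[W.K] M ⊗[W.K] W.H Z where
  toFun h := (psi W τ Z (F (em W L h)) : (baseW W M).H Z)
  map_add' a b := by
    have h : psi W τ Z (F (em W L (a + b))) =
        psi W τ Z (F (em W L a)) + psi W τ Z (F (em W L b)) := by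
      rw [em_add, map_add, map_add]
    exact h
  map_smul' r a := by
    have h : psi W τ Z (F (em W L (r • a))) = ex W M r • psi W τ Z (F (em W L a)) := by
      rw [em_smul, map_smul, psi_smul, kap_ex]
    have h2 : ∀ x : M ⊗[W.K] W.H Z, (algebraMap W.K M r) • x = r • x := fun x =>
      algebraMap_smul M r x
    exact h.trans (h2 _)

/-- The semilinear extension of an operator. -/
noncomputable def up (F : Module.End (baseW W L).K ((baseW W L).H Z)) :
    Module.End (baseW W M).K ((baseW W M).H Z) :=
  (LinearMap.liftBaseChange M (upK τ F) : M ⊗[W.K] W.H Z →ₗ[M] M ⊗[W.K] W.H Z)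

lemma up_em (F : Module.End (baseW W L).K ((baseW W L).H Z)) (a : W.H Z) :
    up τ F (em W M a) = psi W τ Z (F (em W L a)) := by
  have h := LinearMap.liftBaseChange_one_tmul (A := M) (upK τ F) a
  exact h

lemma up_psi (F : Module.End (baseW W L).K ((baseW W L).H Z)) (x : (baseW W L).H Z) :
    up τ F (psi W τ Z x) = psi W τ Z (F x) := by
  refine all_ind (p := fun x => up τ F (psi W τ Z x) = psi W τ Z (F x)) ?_ ?_ ?_ x
  · simp only [map_zero]
  · intro x y hx hy; simp only [map_add, hx, hy]
  · intro l a
    rw [psi_smul, psi_em, map_smul, up_em, map_smul, psi_smul]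

variable {Γ : Type w} [Group Γ] (A : Act (baseW W L) (S.base L) X Γ)

lemma up_gl {m n : ℕ} {F : Module.End (baseW W L).K ((baseW W L).H (pw X m))}
    {G : Module.End (baseW W L).K ((baseW W L).H (pw X n))}
    {H : Module.End (baseW W L).K ((baseW W L).H (pw X (m + n + 1)))}
    (h : ∀ x ∈ PH (baseW W L) (pw X m) 0, ∀ y ∈ PH (baseW W L) (pw X n) 0,
      H (gl (baseW W L) x y) = gl (baseW W L) (F x) (G y))
    {x : (baseW W M).H (pw X m)} (hx : x ∈ PH (baseW W M) (pw X m) 0)
    {y : (baseW W M).H (pw X n)} (hy : y ∈ PH (baseW W M) (pw X n) 0) :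
    up τ H (gl (baseW W M) x y) = gl (baseW W M) (up τ F x) (up τ G y) := by
  have gl_add_left : ∀ (V : WeilCohomology.{u, 0} ops) (x x' : V.H (pw X m)) (y : V.H (pw X n)),
      gl V (x + x') y = gl V x y + gl V x' y := fun V x x' y => by
    rw [gl, xp_add_left, map_add]; rfl
  have gl_add_right : ∀ (V : WeilCohomology.{u, 0} ops) (x : V.H (pw X m)) (y y' : V.H (pw X n)),
      gl V x (y + y') = gl V x y + gl V x y' := fun V x y y' => by
    rw [gl, xp_add_right, map_add]; rfl
  have gl_smul_left : ∀ (V : WeilCohomology.{u, 0} ops) (r : V.K) (x : V.H (pw X m))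
      (y : V.H (pw X n)), gl V (r • x) y = r • gl V x y := fun V r x y => by
    rw [gl, xp_smul_left, map_smul]; rfl
  have gl_smul_right : ∀ (V : WeilCohomology.{u, 0} ops) (r : V.K) (x : V.H (pw X m))
      (y : V.H (pw X n)), gl V x (r • y) = r • gl V x y := fun V r x y => by
    rw [gl, xp_smul_right, map_smul]; rfl
  have gl_zero_left : ∀ (V : WeilCohomology.{u, 0} ops) (y : V.H (pw X n)),
      gl V (0 : V.H (pw X m)) y = 0 := fun V y => by
    have := gl_smul_left V 0 0 y
    rwa [zero_smul, zero_smul] at this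
  have gl_zero_right : ∀ (V : WeilCohomology.{u, 0} ops) (x : V.H (pw X m)),
      gl V x (0 : V.H (pw X n)) = 0 := fun V x => by
    have := gl_smul_right V 0 x 0
    rwa [zero_smul, zero_smul] at this
  refine PH_ind (p := fun x => up τ H (gl (baseW W M) x y) =
    gl (baseW W M) (up τ F x) (up τ G y)) ?_ ?_ ?_ hx
  · rw [gl_zero_left, map_zero, map_zero, gl_zero_left]
  · intro a b ha hb
    rw [gl_add_left, map_add, ha, hb, map_add, gl_add_left]
  · intro l a ha
    refine PH_ind (p := fun y => up τ H (gl (baseW W M) (l • em W M a) y) =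
      gl (baseW W M) (up τ F (l • em W M a)) (up τ G y)) ?_ ?_ ?_ hy
    · rw [gl_zero_right, map_zero, map_zero, gl_zero_right]
    · intro b c hb hc
      rw [gl_add_right, map_add, hb, hc, map_add, gl_add_right]
    · intro l' b hb
      have e1 : gl (baseW W M) (em W M a) (em W M b) = em W M (gl W a b) :=
        ((emR W M).gl a b).symm
      have e2 : gl (baseW W L) (em W L a) (em W L b) = em W L (gl W a b) :=
        ((emR W L).gl a b).symm
      have e3 := h (em W L a) ((emR W L).even ha) (em W L b) ((emR W L).even hb)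
      rw [gl_smul_left, gl_smul_right, map_smul, map_smul, e1, up_em, ← e2, e3, map_smul,
        map_smul, up_em, up_em, gl_smul_left, gl_smul_right]
      have e4 := (psiR (W := W) τ).gl (F (em W L a)) (G (em W L b))
      rw [show psi W τ (pw X (m + n + 1)) (gl (baseW W L) (F (em W L a)) (G (em W L b))) = _ from e4]
      rfl

/-- The extension of the coefficients of a group of operators. -/
noncomputable def Act.up : Act (baseW W M) (S.base M) X Γ where
  B g n := MT.up τ (A.B g n)
  one n x := by
    refine all_ind (p := fun x => MT.up τ (A.B 1 n) x = x) ?_ ?_ ?_ x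
    · rw [map_zero]
    · intro x y hx hy; rw [map_add, hx, hy]
    · intro l a
      rw [map_smul, up_em, A.one, psi_em]
  mul g h n x := by
    refine all_ind (p := fun x => MT.up τ (A.B (g * h) n) x =
      MT.up τ (A.B g n) (MT.up τ (A.B h n) x)) ?_ ?_ ?_ x
    · simp only [map_zero]
    · intro x y hx hy; simp only [map_add, hx, hy]
    · intro l a
      rw [map_smul, up_em, A.mul, map_smul, up_em, map_smul, up_psi]
  deg g n i x hx := by
    refine gr_ind (p := fun x => MT.up τ (A.B g n) x ∈ (baseW W M).gr (pw X n) i) ?_ ?_ ?_ hx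
    · rw [map_zero]; exact Submodule.zero_mem _
    · intro x y hx hy; rw [map_add]; exact Submodule.add_mem _ hx hy
    · intro l a ha
      rw [map_smul, up_em]
      exact Submodule.smul_mem _ _ (psi_gr τ (A.deg g n i _ (em_gr ha)))
  fix g n c hc := by
    refine base_ind (p := fun c => MT.up τ (A.B g n) c = c) ?_ ?_ ?_ hc
    · rw [map_zero]
    · intro x y hx hy; rw [map_add, hx, hy]
    · intro l a ha
      rw [map_smul, up_em, A.fix g n _ (em_mem_base ha), psi_em]
  comm g m n f hf x := by
    obtain ⟨z, hz, rfl⟩ := Sys.mem_Op.1 hf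
    refine base_ind (p := fun z => MT.up τ (A.B g n) ((baseW W M).corr z x) =
      (baseW W M).corr z (MT.up τ (A.B g m) x)) ?_ ?_ ?_ hz
    · rw [corr_zero]; simp
    · intro a b ha hb
      rw [corr_add, LinearMap.add_apply, map_add, ha, hb, LinearMap.add_apply]
    · intro l a ha
      rw [corr_smul, LinearMap.smul_apply, map_smul, LinearMap.smul_apply]
      congr 1
      refine all_ind (p := fun x => MT.up τ (A.B g n) ((baseW W M).corr (em W M a) x) =
        (baseW W M).corr (em W M a) (MT.up τ (A.B g m) x)) ?_ ?_ ?_ x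
      · simp only [map_zero]
      · intro x y hx hy; simp only [map_add, hx, hy]
      · intro l b
        have e1 : (baseW W M).corr (em W M a) (em W M b) = em W M (W.corr a b) :=
          ((emR W M).corr a b).symm
        have e2 : (baseW W L).corr (em W L a) (em W L b) = em W L (W.corr a b) :=
          ((emR W L).corr a b).symm
        have e3 := A.comm g m n _ (Sys.Op.corr (em_mem_base (L := L) ha)) (em W L b)
        have e4 := (psiR (W := W) τ).corr (em W L a) (A.B g m (em W L b))
        rw [map_smul, map_smul, map_smul, map_smul, e1, up_em, ← e2, e3, up_em]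
        congr 1
        refine Eq.trans e4 ?_
        have e5 : (psiR (W := W) τ).E ((pw X m).prod (pw X n)) (em W L a) = em W M a :=
          psi_em τ a
        rw [e5]
        rfl
  ext g m n x hx y hy := up_gl τ (A.ext g m n) hx hy

lemma Act.up_B (g : Γ) (n : ℕ) (x : (baseW W L).H (pw X n)) :
    (A.up τ).B g n (psi W τ _ x) = psi W τ _ (A.B g n x) := up_psi τ _ x

end Pool.Agent.D0H78.MT
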