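import Pool.Agent.D0H78.MT.Defs
import Pool.Agent.D0H78.MT.Up
import Pool.Agent.R920.MT.Main

/-!
# The normalised operators of a Galois action
-/

open CategoryTheory AlgebraicGeometry TensorProduct

universe u v w

namespace Pool.Agent.D0H78.MT

open Module
open Pool.Agent.H914 Pool.Agent.H914.VarClass Pool.Agent.H914.VarClass.Obj
  Pool.Agent.H914.WeilCohomology Pool.Agent.Y133.Half Pool.Agent.R920.MT
open Pool.Agent.Y121.AH (em psi kap dia dia_apply)

variable {k : Type u} [Field k] {𝒱 : VarClass k} {ops : CycleOps 𝒱}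

section Proj

variable {X : 𝒱.Obj}

lemma aux_fst {A B C Z : 𝒱.Obj} (φ : A.prod B ≅ C) (q : A ⟶ Z) :
    ((θ₃ A B X).symm ≪≫ prodCongr φ (Iso.refl X)).inv ≫ fst A (B.prod X) ≫ q =
      fst C X ≫ φ.inv ≫ fst A B ≫ q := by
  have h1 : (θ₃ A B X).hom ≫ fst A (B.prod X) = fst (A.prod B) X ≫ fst A B := Obj.lift_fst _ _
  have h2 : (prodCongr φ (Iso.refl X)).inv ≫ fst (A.prod B) X = fst C X ≫ φ.inv :=
    Obj.lift_fst _ _
  rw [Iso.trans_inv, Iso.symm_inv, Category.assoc, ← Category.assoc (θ₃ A B X).hom, h1,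
    Category.assoc, ← Category.assoc (prodCongr φ (Iso.refl X)).inv, h2, Category.assoc]

lemma aux_snd_fst {A B C Z : 𝒱.Obj} (φ : A.prod B ≅ C) (q : B ⟶ Z) :
    ((θ₃ A B X).symm ≪≫ prodCongr φ (Iso.refl X)).inv ≫ snd A (B.prod X) ≫ fst B X ≫ q =
      fst C X ≫ φ.inv ≫ snd A B ≫ q := by
  have h0 : (θ₃ A B X).hom ≫ snd A (B.prod X) =
      Obj.lift (fst (A.prod B) X ≫ snd A B) (snd (A.prod B) X) := Obj.lift_snd _ _
  have h1 : (θ₃ A B X).hom ≫ snd A (B.prod X) ≫ fst B X ≫ q =
      fst (A.prod B) X ≫ snd A B ≫ q := by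
    rw [← Category.assoc, h0, ← Category.assoc, Obj.lift_fst, Category.assoc]
  have h2 : (prodCongr φ (Iso.refl X)).inv ≫ fst (A.prod B) X = fst C X ≫ φ.inv :=
    Obj.lift_fst _ _
  rw [Iso.trans_inv, Iso.symm_inv, Category.assoc, h1,
    ← Category.assoc (prodCongr φ (Iso.refl X)).inv, h2, Category.assoc]

lemma aux_snd_snd {A B C : 𝒱.Obj} (φ : A.prod B ≅ C) :
    ((θ₃ A B X).symm ≪≫ prodCongr φ (Iso.refl X)).inv ≫ snd A (B.prod X) ≫ snd B X =
      snd C X := by
  have h0 : (θ₃ A B X).hom ≫ snd A (B.prod X) =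
      Obj.lift (fst (A.prod B) X ≫ snd A B) (snd (A.prod B) X) := Obj.lift_snd _ _
  have h1 : (θ₃ A B X).hom ≫ snd A (B.prod X) ≫ snd B X = snd (A.prod B) X := by
    rw [← Category.assoc, h0, Obj.lift_snd]
  have h2 : (prodCongr φ (Iso.refl X)).inv ≫ snd (A.prod B) X = snd C X ≫ 𝟙 X :=
    Obj.lift_snd _ _
  rw [Iso.trans_inv, Iso.symm_inv, Category.assoc, h1, h2, Category.comp_id]

lemma isProj_left (m : ℕ) {q : pw X m ⟶ X} (hq : IsProj X m q) :
    ∀ n, IsProj X (m + n + 1) ((pwAdd X m n).inv ≫ fst (pw X m) (pw X n) ≫ q)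
  | 0 => by
    have h : (pwAdd X m 0).inv ≫ fst (pw X m) (pw X 0) ≫ q = fst (pw X m) X ≫ q :=
      Category.id_comp _
    rw [h]
    exact IsProj.step m q hq
  | n + 1 => by
    have h2 : (pwAdd X m (n + 1)).inv ≫ fst (pw X m) (pw X (n + 1)) ≫ q =
        fst (pw X (m + n + 1)) X ≫ (pwAdd X m n).inv ≫ fst (pw X m) (pw X n) ≫ q :=
      aux_fst (pwAdd X m n) q
    rw [h2]
    exact IsProj.step _ _ (isProj_left m hq n)

lemma isProj_right (m : ℕ) (n : ℕ) {q : pw X n ⟶ X} (hq : IsProj X n q) :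
    IsProj X (m + n + 1) ((pwAdd X m n).inv ≫ snd (pw X m) (pw X n) ≫ q) := by
  induction hq with
  | one =>
    have h : (pwAdd X m 0).inv ≫ snd (pw X m) (pw X 0) ≫ 𝟙 X = snd (pw X m) X := by
      have e1 : (pwAdd X m 0).inv ≫ snd (pw X m) (pw X 0) ≫ 𝟙 X = snd (pw X m) X ≫ 𝟙 X :=
        Category.id_comp _
      exact e1.trans (Category.comp_id _)
    rw [h]
    exact IsProj.last m
  | last n =>
    have h2 : (pwAdd X m (n + 1)).inv ≫ snd (pw X m) (pw X (n + 1)) ≫ snd (pw X n) X =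
        snd (pw X (m + n + 1)) X := aux_snd_snd (pwAdd X m n)
    rw [h2]
    exact IsProj.last _
  | step n q hq ih =>
    have h2 : (pwAdd X m (n + 1)).inv ≫ snd (pw X m) (pw X (n + 1)) ≫ fst (pw X n) X ≫ q =
        fst (pw X (m + n + 1)) X ≫ (pwAdd X m n).inv ≫ snd (pw X m) (pw X n) ≫ q :=
      aux_snd_fst (pwAdd X m n) q
    rw [h2]
    exact IsProj.step _ _ ih

end Proj

/-- An algebra homomorphism from the cohomology of a power is determined by its values on the
pull-backs from the factors. -/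
lemma algHom_ext_pw {V : WeilCohomology.{u, v} ops} {X : 𝒱.Obj} {B : Type*} [Ring B]
    [Algebra V.K B] (n : ℕ) :
    ∀ {f g : V.H (pw X n) →ₐ[V.K] B}, (∀ p, IsProj X n p → ∀ a : V.H X,
      f (V.map p a) = g (V.map p a)) → f = g := by
  induction n with
  | zero =>
    intro f g h
    apply AlgHom.ext
    intro a
    have h1 := h (𝟙 X) IsProj.one a
    have h2 : V.map (𝟙 X) a = a := V.map_id X a
    exact (congrArg f h2.symm).trans (h1.trans (congrArg g h2))
  | succ n ih =>
    intro f g h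
    apply AlgHom.ext
    intro c
    have key : ∀ c : V.H ((pw X n).prod X), f c = g c := by
      intro c
      refine V.kunneth_induction (p := fun c : V.H ((pw X n).prod X) => f c = g c) ?_ ?_ c
      · intro a b ha hb
        have e1 : f (a + b) = f a + f b := map_add f _ _
        have e2 : g (a + b) = g a + g b := map_add g _ _
        rw [e1, e2, ha, hb]
      · intro _ _ a _ b _
        have e1 : f (V.map (fst (pw X n) X) a * V.map (snd (pw X n) X) b) =
            f (V.map (fst (pw X n) X) a) * f (V.map (snd (pw X n) X) b) := map_mul f _ _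
        have e2 : g (V.map (fst (pw X n) X) a * V.map (snd (pw X n) X) b) =
            g (V.map (fst (pw X n) X) a) * g (V.map (snd (pw X n) X) b) := map_mul g _ _
        have h1 : f (V.map (snd (pw X n) X) b) = g (V.map (snd (pw X n) X) b) :=
          h _ (IsProj.last n) b
        have h2 : f.comp (V.map (fst (pw X n) X)) = g.comp (V.map (fst (pw X n) X)) := by
          apply ih
          intro p hp a
          have h3 := h _ (IsProj.step n p hp) a
          have h4 : V.map (fst (pw X n) X ≫ p) a = V.map (fst (pw X n) X) (V.map p a) :=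
            V.map_comp _ _ a
          exact (congrArg f h4.symm).trans (h3.trans (congrArg g h4))
        have h3 : f (V.map (fst (pw X n) X) a) = g (V.map (fst (pw X n) X) a) :=
          congrArg (fun f => f a) h2
        rw [e1, e2, h1, h3]
    exact key c

namespace GaloisAction

variable {W : WeilCohomology.{u, 0} ops} {X : 𝒱.Obj} (G : GaloisAction W X)

/-- Morphisms between powers given by projections are equivariant. -/
lemma equiv {m n : ℕ} (p : pw X n ⟶ pw X m)
    (hp : ∀ q, IsProj X m q → IsProj X n (p ≫ q)) (g : G.Γ) (a : G.V.H (pw X m)) :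
    G.ρ n g (G.V.map p a) = G.V.map p (G.ρ m g a) := by
  have h1 : ((G.ρ n g : G.V.H (pw X n) ≃ₐ[G.V.K] G.V.H (pw X n)) :
      G.V.H (pw X n) →ₐ[G.V.K] G.V.H (pw X n)).comp (G.V.map p) = (G.V.map p).comp
      ((G.ρ m g : G.V.H (pw X m) ≃ₐ[G.V.K] G.V.H (pw X m)) :
        G.V.H (pw X m) →ₐ[G.V.K] G.V.H (pw X m)) := by
    apply algHom_ext_pw
    intro q hq a
    have e1 : G.ρ m g (G.V.map q a) = G.V.map q (G.ρ 0 g a) := G.proj g m q hq a
    have e2 : G.ρ n g (G.V.map (p ≫ q) a) = G.V.map (p ≫ q) (G.ρ 0 g a) :=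
      G.proj g n _ (hp q hq) a
    change G.ρ n g (G.V.map p (G.V.map q a)) = G.V.map p (G.ρ m g (G.V.map q a))
    rw [e1, ← G.V.map_comp, e2, G.V.map_comp]
  exact congrArg (fun f => f a) h1

/-- Push-forwards along equivariant morphisms. -/
lemma push_act {m n : ℕ} {p : pw X n ⟶ pw X m}
    (hp : ∀ (g : G.Γ) (a : G.V.H (pw X m)), G.ρ n g (G.V.map p a) = G.V.map p (G.ρ m g a))
    (g : G.Γ) (c : G.V.H (pw X n)) :
    ((G.χ g : G.V.K) ^ (pw X n).dim) • G.ρ m g (G.V.push p c) =
      ((G.χ g : G.V.K) ^ (pw X m).dim) • G.V.push p (G.ρ n g c) := by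
  apply G.V.tr_ext
  intro y'
  obtain ⟨y, rfl⟩ := (G.ρ m g).surjective y'
  rw [smul_mul_assoc, smul_mul_assoc, map_smul, map_smul, ← map_mul, G.trace, G.V.tr_push,
    G.V.tr_push, ← hp, ← map_mul, G.trace, smul_eq_mul, smul_eq_mul]
  ring

/-- The inverse of the character. -/
noncomputable def c (g : G.Γ) : G.V.K := ((G.χ g)⁻¹ : (G.V.K)ˣ)

lemma c_mul_χ (g : G.Γ) : G.c g * (G.χ g : G.V.K) = 1 := Units.inv_mul _

lemma c_ne (g : G.Γ) : G.c g ≠ 0 := Units.ne_zero _

lemma c_one : G.c 1 = 1 := by rw [c, map_one, inv_one, Units.val_one]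

lemma c_mul (g h : G.Γ) : G.c (g * h) = G.c g * G.c h := by
  rw [c, map_mul, mul_inv, Units.val_mul]
  rfl

/-- The normalised operators. -/
noncomputable def B (g : G.Γ) (n : ℕ) : Module.End G.V.K (G.V.H (pw X n)) :=
  dia (G.V.isInternal (pw X n)) (fun i => G.c g ^ (i / 2)) ∘ₗ (G.ρ n g).toLinearMap

lemma B_apply {g : G.Γ} {n i : ℕ} {x : G.V.H (pw X n)} (hx : x ∈ G.V.gr (pw X n) i) :
    G.B g n x = G.c g ^ (i / 2) • G.ρ n g x :=
  dia_apply (G.V.isInternal (pw X n)) (fun i => G.c g ^ (i / 2)) (G.degree g n i x hx)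

lemma B_ind {n : ℕ} {p : G.V.H (pw X n) → Prop} (h : ∀ i, ∀ x ∈ G.V.gr (pw X n) i, p x)
    (hadd : ∀ x y, p x → p y → p (x + y)) (x : G.V.H (pw X n)) : p x :=
  gr_induction (G.V.isInternal (pw X n)) (p := p) (fun i x hx => h i x hx) hadd x

lemma B_deg (g : G.Γ) (n i : ℕ) (x : G.V.H (pw X n)) (hx : x ∈ G.V.gr (pw X n) i) :
    G.B g n x ∈ G.V.gr (pw X n) i := by
  rw [G.B_apply hx]
  exact Submodule.smul_mem _ _ (G.degree g n i x hx)

lemma B_one (n : ℕ) (x : G.V.H (pw X n)) : G.B 1 n x = x := by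
  refine G.B_ind (p := fun x => G.B 1 n x = x) ?_ ?_ x
  · intro i x hx
    rw [G.B_apply hx, c_one, one_pow, one_smul, map_one]
    rfl
  · intro x y hx hy; rw [map_add, hx, hy]

lemma B_mul (g h : G.Γ) (n : ℕ) (x : G.V.H (pw X n)) :
    G.B (g * h) n x = G.B g n (G.B h n x) := by
  refine G.B_ind (p := fun x => G.B (g * h) n x = G.B g n (G.B h n x)) ?_ ?_ x
  · intro i x hx
    rw [G.B_apply (G.B_deg h n i x hx), G.B_apply hx, G.B_apply hx, map_smul, smul_smul,
      c_mul, mul_pow, map_mul]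
    rfl
  · intro x y hx hy; rw [map_add, hx, hy, map_add, map_add]

/-- The motivated classes with coefficients in `L`. -/
noncomputable abbrev SL : Sys G.V := (motPred W).sys.base G.L

lemma B_fix (g : G.Γ) (n : ℕ) (x : G.V.H (pw X n)) (hx : x ∈ G.SL.C (pw X n)) :
    G.B g n x = x := by
  refine base_ind (S := (motPred W).sys) (p := fun x => G.B g n x = x) ?_ ?_ ?_ hx
  · rw [map_zero]
  · intro x y hx hy; rw [map_add, hx, hy]
  · intro l a ha
    rw [map_smul]
    congr 1
    refine ClassPred.sp_ind (Q := motPred W)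
      (q := fun a => G.B g n (em W G.L a) = em W G.L a) ?_ ?_ ?_ ha
    · intro j a ha
      have h1 := G.motivated g n j a ha
      have h2 : G.ρ n g (em W G.L a) = (G.χ g : G.V.K) ^ j • em W G.L a := h1
      rw [G.B_apply (i := 2 * j) (Y121.AH.em_gr (IsMotivated.gr ha)), h2, smul_smul,
        Nat.mul_div_cancel_left j (by norm_num), ← mul_pow, c_mul_χ, one_pow, one_smul]
    · rw [Y121.AH.em_zero, map_zero]
    · intro a b ha hb; rw [Y121.AH.em_add, map_add, ha, hb]

/-- The normalised operators respect the external products. -/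
lemma B_ext (g : G.Γ) (m n : ℕ) (x : G.V.H (pw X m)) (hx : x ∈ PH G.V (pw X m) 0)
    (y : G.V.H (pw X n)) (hy : y ∈ PH G.V (pw X n) 0) :
    G.B g (m + n + 1) (gl G.V x y) = gl G.V (G.B g m x) (G.B g n y) := by
  have hρ : ∀ (x : G.V.H (pw X m)) (y : G.V.H (pw X n)),
      G.ρ (m + n + 1) g (gl G.V x y) = gl G.V (G.ρ m g x) (G.ρ n g y) := by
    intro x y
    have e1 : ∀ (x : G.V.H (pw X m)) (y : G.V.H (pw X n)), gl G.V x y =
        G.V.map ((pwAdd X m n).inv ≫ fst _ _) x * G.V.map ((pwAdd X m n).inv ≫ snd _ _) y := by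
      intro x y
      rw [gl, xp, map_mul (G.V.map (pwAdd X m n).inv), ← G.V.map_comp, ← G.V.map_comp]
    rw [e1, e1, map_mul (G.ρ (m + n + 1) g), G.equiv, G.equiv]
    · intro q hq
      rw [Category.assoc]
      exact isProj_right m n hq
    · intro q hq
      rw [Category.assoc]
      exact isProj_left m hq n
  refine PH.ind (p := fun x => G.B g (m + n + 1) (gl G.V x y) =
    gl G.V (G.B g m x) (G.B g n y)) ?_ ?_ ?_ hx
  · intro i hi x hx
    refine PH.ind (p := fun y => G.B g (m + n + 1) (gl G.V x y) =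
      gl G.V (G.B g m x) (G.B g n y)) ?_ ?_ ?_ hy
    · intro j hj y hy
      have hd : gl G.V x y ∈ G.V.gr (pw X (m + n + 1)) (i + j) :=
        G.V.map_mem _ (G.V.mul_mem (G.V.map_mem _ hx) (G.V.map_mem _ hy))
      have hij : (i + j) / 2 = i / 2 + j / 2 := by omega
      have e2 : ∀ (a b : G.V.K) (x : G.V.H (pw X m)) (y : G.V.H (pw X n)),
          gl G.V (a • x) (b • y) = (a * b) • gl G.V x y := by
        intro a b x y
        rw [gl, xp_smul_left, xp_smul_right, map_smul, map_smul, smul_smul]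
        rfl
      rw [G.B_apply hd, G.B_apply hx, G.B_apply hy, hρ, e2, hij, pow_add]
    · have e3 : ∀ x : G.V.H (pw X m), gl G.V x (0 : G.V.H (pw X n)) = 0 := by
        intro x
        rw [gl, xp, map_zero, mul_zero, map_zero]
      rw [e3, map_zero, map_zero, e3]
    · intro y y' hy hy'
      have e3 : ∀ (x : G.V.H (pw X m)) (y y' : G.V.H (pw X n)),
          gl G.V x (y + y') = gl G.V x y + gl G.V x y' := by
        intro x y y'
        rw [gl, xp_add_right, map_add]; rfl
      rw [e3, map_add, hy, hy', map_add, e3]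
  · have e3 : ∀ y : G.V.H (pw X n), gl G.V (0 : G.V.H (pw X m)) y = 0 := by
      intro y
      rw [gl, xp, map_zero, zero_mul, map_zero]
    rw [e3, map_zero, map_zero, e3]
  · intro x x' hx hx'
    have e3 : ∀ (x x' : G.V.H (pw X m)) (y : G.V.H (pw X n)),
        gl G.V (x + x') y = gl G.V x y + gl G.V x' y := by
      intro x x' y
      rw [gl, xp_add_left, map_add]; rfl
    rw [e3, map_add, hx, hx', map_add, e3]

end GaloisAction

end Pool.Agent.D0H78.MT
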