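import Pool.Agent.D0H78.MT.Gal

/-!
# The normalised operators of a Galois action commute with the motivated correspondences
-/

open CategoryTheory AlgebraicGeometry TensorProduct

universe u v w

namespace Pool.Agent.D0H78.MT

open Module
open Pool.Agent.H914 Pool.Agent.H914.VarClass Pool.Agent.H914.VarClass.Obj
  Pool.Agent.H914.WeilCohomology Pool.Agent.Y133.Half Pool.Agent.R920.MT
open Pool.Agent.Y121.AH (em psi kap dia dia_apply)

variable {k : Type u} [Field k] {𝒱 : VarClass k} {ops : CycleOps 𝒱}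

lemma dim_pw (X : 𝒱.Obj) (n : ℕ) : (pw X n).dim = (n + 1) * X.dim := by
  induction n with
  | zero => rw [zero_add, one_mul]; rfl
  | succ n ih =>
    have h1 : (pw X (n + 1)).dim = (pw X n).dim + X.dim := dim_prod (pw X n) X
    rw [h1, ih]
    ring

namespace GaloisAction

variable {W : WeilCohomology.{u, 0} ops} {X : 𝒱.Obj} (G : GaloisAction W X)

/-- A correspondence given by a motivated class on the power. -/
lemma comm_mot (g : G.Γ) (m n r i : ℕ) (b : W.H (pw X (m + n + 1)))
    (hb : IsMotivated W (pw X (m + n + 1)) r b) {x : G.V.H (pw X m)}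
    (hx : x ∈ G.V.gr (pw X m) i) :
    G.B g n (G.V.push ((pwAdd X m n).inv ≫ snd _ _)
      (em W G.L b * G.V.map ((pwAdd X m n).inv ≫ fst _ _) x)) =
    G.V.push ((pwAdd X m n).inv ≫ snd _ _)
      (em W G.L b * G.V.map ((pwAdd X m n).inv ≫ fst _ _) (G.B g m x)) := by
  set p : pw X (m + n + 1) ⟶ pw X m := (pwAdd X m n).inv ≫ fst _ _ with hp
  set q : pw X (m + n + 1) ⟶ pw X n := (pwAdd X m n).inv ≫ snd _ _ with hq
  have hpe : ∀ (g : G.Γ) (a : G.V.H (pw X m)),
      G.ρ (m + n + 1) g (G.V.map p a) = G.V.map p (G.ρ m g a) := fun g a =>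
    G.equiv p (fun q hq => by rw [hp, Category.assoc]; exact isProj_left m hq n) g a
  have hqe : ∀ (g : G.Γ) (a : G.V.H (pw X n)),
      G.ρ (m + n + 1) g (G.V.map q a) = G.V.map q (G.ρ n g a) := fun g a =>
    G.equiv q (fun q' hq' => by rw [hq, Category.assoc]; exact isProj_right m n hq') g a
  have hbd : em W G.L b ∈ G.V.gr (pw X (m + n + 1)) (2 * r) :=
    Y121.AH.em_gr (IsMotivated.gr hb)
  have hy : ∀ x ∈ G.V.gr (pw X m) i, em W G.L b * G.V.map p x ∈
      G.V.gr (pw X (m + n + 1)) (2 * r + i) := fun x hx => G.V.mul_mem hbd (G.V.map_mem p hx)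
  have hdm := dim_pw X m
  have hdn := dim_pw X n
  have hdb : (pw X (m + n + 1)).dim = (pw X m).dim + (pw X n).dim := by
    rw [dim_pw, hdm, hdn]; ring
  have hpush : ∀ x ∈ G.V.gr (pw X m) i, G.V.push q (em W G.L b * G.V.map p x) ∈
      grZ (G.V.gr (pw X n)) (((2 * r + i : ℕ) : ℤ) +
        2 * (((pw X n).dim : ℤ) - (pw X (m + n + 1)).dim)) := fun x hx =>
    G.V.push_mem q (hy x hx)
  by_cases hl : 2 * (pw X m).dim ≤ 2 * r + i
  · have e1 : ((2 * r + i : ℕ) : ℤ) + 2 * (((pw X n).dim : ℤ) - (pw X (m + n + 1)).dim) =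
        ((2 * r + i - 2 * (pw X m).dim : ℕ) : ℤ) := by
      rw [hdb]
      push_cast [Nat.cast_sub hl]
      ring
    rw [e1, grZ_natCast] at hpush
    have hρ : G.ρ (m + n + 1) g (em W G.L b * G.V.map p x) =
        (G.χ g : G.V.K) ^ r • (em W G.L b * G.V.map p (G.ρ m g x)) := by
      have h1 : G.ρ (m + n + 1) g (em W G.L b) = (G.χ g : G.V.K) ^ r • em W G.L b :=
        G.motivated g _ r b hb
      rw [map_mul (G.ρ (m + n + 1) g), h1, hpe, smul_mul_assoc]
    have h2 := G.push_act hqe g (em W G.L b * G.V.map p x)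
    rw [hρ, map_smul, smul_smul] at h2
    rw [G.B_apply (hpush x hx), G.B_apply hx, map_smul, mul_smul_comm, map_smul]
    set y := G.V.push q (em W G.L b * G.V.map p (G.ρ m g x)) with hyd
    set z := G.ρ n g (G.V.push q (em W G.L b * G.V.map p x)) with hzd
    have hc := G.c_mul_χ g
    have h3 : z = (G.c g ^ (pw X (m + n + 1)).dim *
        ((G.χ g : G.V.K) ^ (pw X n).dim * (G.χ g : G.V.K) ^ r)) • y := by
      have h4 := congrArg (fun w => G.c g ^ (pw X (m + n + 1)).dim • w) h2
      simp only [smul_smul] at h4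
      rw [← mul_pow, hc, one_pow, one_smul] at h4
      rw [h4]
    rw [h3, smul_smul]
    congr 1
    have e2 : (2 * r + i - 2 * (pw X m).dim) / 2 + (pw X (m + n + 1)).dim =
        i / 2 + (r + (pw X n).dim) := by
      rw [hdb]
      omega
    rw [← mul_assoc, ← pow_add, e2, pow_add, mul_assoc, ← pow_add, Nat.add_comm (pw X n).dim r,
      ← mul_pow, hc, one_pow, mul_one]
  · have h0 : ∀ x ∈ G.V.gr (pw X m) i, G.V.push q (em W G.L b * G.V.map p x) = 0 := by
      intro x hx
      have h1 := hpush x hx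
      rw [grZ_of_neg (by rw [hdb]; push_cast; omega), Submodule.mem_bot] at h1
      exact h1
    rw [h0 x hx, h0 _ (G.B_deg g m i x hx), map_zero]

/-- The normalised operators commute with the motivated correspondences. -/
lemma B_comm (g : G.Γ) (m n : ℕ) (f : G.V.H (pw X m) →ₗ[G.V.K] G.V.H (pw X n))
    (hf : f ∈ G.SL.Op (pw X m) (pw X n)) (x : G.V.H (pw X m)) :
    G.B g n (f x) = f (G.B g m x) := by
  obtain ⟨z, hz, rfl⟩ := Sys.mem_Op.1 hf
  refine base_ind (S := (motPred W).sys) (p := fun z => G.B g n (G.V.corr z x) =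
    G.V.corr z (G.B g m x)) ?_ ?_ ?_ hz
  · have h0 : G.V.corr (0 : G.V.H ((pw X m).prod (pw X n))) = 0 := corr_zero _
    rw [h0, LinearMap.zero_apply, LinearMap.zero_apply, map_zero]
  · intro a b ha hb
    rw [corr_add, LinearMap.add_apply, map_add, ha, hb, LinearMap.add_apply]
  · intro l a ha
    rw [corr_smul, LinearMap.smul_apply, map_smul, LinearMap.smul_apply]
    congr 1
    refine ClassPred.sp_ind (Q := motPred W) (q := fun a => G.B g n (G.V.corr (em W G.L a) x) =
      G.V.corr (em W G.L a) (G.B g m x)) ?_ ?_ ?_ ha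
    · intro r a ha
      have e1 : ∀ y : G.V.H (pw X m), G.V.corr (em W G.L a) y =
          G.V.push ((pwAdd X m n).inv ≫ snd _ _)
            (em W G.L (W.push (pwAdd X m n).hom a) *
              G.V.map ((pwAdd X m n).inv ≫ fst _ _) y) := by
        intro y
        have h1 : snd (pw X m) (pw X n) = (pwAdd X m n).hom ≫ (pwAdd X m n).inv ≫ snd _ _ := by
          rw [← Category.assoc, Iso.hom_inv_id, Category.id_comp]
        have h2 : fst (pw X m) (pw X n) = (pwAdd X m n).hom ≫ (pwAdd X m n).inv ≫ fst _ _ := by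
          rw [← Category.assoc, Iso.hom_inv_id, Category.id_comp]
        rw [corr_apply]
        conv_lhs => rw [h1, h2]
        rw [G.V.push_comp, G.V.map_comp (pwAdd X m n).hom, G.V.push_mul, ← Y121.AH.em_push]
      have hb : IsMotivated W (pw X (m + n + 1)) r (W.push (pwAdd X m n).hom a) := by
        refine (motPred W).push _ ?_ ha
        rw [dim_prod, dim_pw, dim_pw, dim_pw]
        ring
      rw [e1, e1]
      refine G.B_ind (p := fun x => G.B g n (G.V.push ((pwAdd X m n).inv ≫ snd _ _)
            (em W G.L (W.push (pwAdd X m n).hom a) *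
              G.V.map ((pwAdd X m n).inv ≫ fst _ _) x)) =
          G.V.push ((pwAdd X m n).inv ≫ snd _ _)
            (em W G.L (W.push (pwAdd X m n).hom a) *
              G.V.map ((pwAdd X m n).inv ≫ fst _ _) (G.B g m x))) ?_ ?_ x
      · intro i x hx
        exact G.comm_mot g m n r i _ hb hx
      · intro x y hx hy
        rw [map_add (G.V.map _), mul_add, map_add, map_add, hx, hy, map_add (G.B g m),
          map_add (G.V.map _), mul_add, map_add]
    · have h0 : G.V.corr (em W G.L (0 : W.H ((pw X m).prod (pw X n)))) = 0 := by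
        rw [Y121.AH.em_zero]; exact corr_zero _
      rw [h0, LinearMap.zero_apply, LinearMap.zero_apply, map_zero]
    · intro a b ha hb
      rw [Y121.AH.em_add, corr_add, LinearMap.add_apply, map_add, ha, hb, LinearMap.add_apply]

/-- The group of the normalised operators. -/
noncomputable def act : Act G.V G.SL X G.Γ where
  B := G.B
  one := G.B_one
  mul := G.B_mul
  deg := G.B_deg
  fix := G.B_fix
  comm := G.B_comm
  ext := G.B_ext

/-- The Tate classes are the homogeneous classes fixed by the normalised operators. -/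
lemma isTate_iff {n j : ℕ} {x : G.V.H (pw X n)} :
    G.IsTate n j x ↔ x ∈ G.V.gr (pw X n) (2 * j) ∧ x ∈ G.act.inv n := by
  have hB : ∀ g, x ∈ G.V.gr (pw X n) (2 * j) → (G.B g n x = x ↔
      G.ρ n g x = (G.χ g : G.V.K) ^ j • x) := by
    intro g hx
    rw [G.B_apply hx, Nat.mul_div_cancel_left j (by norm_num)]
    have hc := G.c_mul_χ g
    constructor
    · intro h
      have h1 := congrArg (fun w => (G.χ g : G.V.K) ^ j • w) h
      simp only [smul_smul] at h1
      rw [← mul_pow, mul_comm (G.χ g : G.V.K), hc, one_pow, one_smul] at h1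
      exact h1
    · intro h
      rw [h, smul_smul, ← mul_pow, hc, one_pow, one_smul]
  constructor
  · rintro ⟨hx, Δ, hΔ, h⟩
    exact ⟨hx, PH.of' (by omega) hx, Δ, hΔ, fun g hg => (hB g hx).2 (h g hg)⟩
  · rintro ⟨hx, -, Δ, hΔ, h⟩
    exact ⟨hx, Δ, hΔ, fun g hg => (hB g hx).1 (h g hg)⟩

end GaloisAction

/-- Homogeneous components of fixed classes are fixed. -/
lemma Act.proj_mem {V : WeilCohomology.{u, v} ops} {S : Sys V} {X : 𝒱.Obj} {Γ : Type w} [Group Γ]
    (A : Act V S X Γ) {n : ℕ} {x : V.H (pw X n)} (hx : x ∈ A.inv n) (i : ℕ) :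
    H914.proj (V.isInternal (pw X n)) i x ∈ A.inv n := by
  obtain ⟨hx, Δ, hΔ, h⟩ := hx
  have hp : ∀ g (x : V.H (pw X n)), A.B g n (H914.proj (V.isInternal (pw X n)) i x) =
      H914.proj (V.isInternal (pw X n)) i (A.B g n x) := by
    intro g x
    refine gr_induction (V.isInternal (pw X n)) (p := fun x =>
      A.B g n (H914.proj (V.isInternal (pw X n)) i x) =
        H914.proj (V.isInternal (pw X n)) i (A.B g n x)) ?_ ?_ x
    · intro l x hx
      by_cases hl : l = i
      · subst hl
        rw [proj_same _ hx, proj_same _ (A.deg g n l x hx)]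
      · rw [proj_ne _ hx hl, proj_ne _ (A.deg g n l x hx) hl, map_zero]
    · intro a b ha hb; rw [map_add, map_add, ha, hb, map_add, map_add]
  refine ⟨?_, Δ, hΔ, fun g hg => by rw [hp, h g hg]⟩
  refine PH.ind (p := fun x => H914.proj (V.isInternal (pw X n)) i x ∈ PH V (pw X n) 0)
    ?_ ?_ ?_ hx
  · intro l hl x hx
    by_cases hli : l = i
    · subst hli
      rw [proj_same _ hx]; exact PH.of' hl hx
    · rw [proj_ne _ hx hli]; exact Submodule.zero_mem _
  · rw [map_zero]; exact Submodule.zero_mem _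
  · intro a b ha hb; rw [map_add]; exact Submodule.add_mem _ ha hb

end Pool.Agent.D0H78.MT
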