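import Pool.Agent.D0H78.MT.Fin

/-!
# The action given by the Hodge decomposition
-/

open CategoryTheory AlgebraicGeometry TensorProduct

universe u v w

namespace Pool.Agent.D0H78.MT

open Module
open Pool.Agent.H914 Pool.Agent.H914.VarClass Pool.Agent.H914.VarClass.Obj
  Pool.Agent.H914.WeilCohomology Pool.Agent.Y133.Half Pool.Agent.R920.MT Pool.Agent.Y121.AH

variable {k : Type u} [Field k] {𝒱 : VarClass k} {ops : CycleOps 𝒱} {T : HodgeTheory ops}
  {X Y : 𝒱.Obj}

lemma tr_gz (k : ℤ) (x : (CW T).H X) : (CW T).tr X (gz T k X x) = (CW T).tr X x := by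
  rcases subsingleton_or_nontrivial (T.W.H X) with hs | hn
  · have h1 : ∀ x : (CW T).H X, x = 0 := by
      intro x
      refine tmul_ind (p := fun x => x = 0) rfl ?_ ?_ x
      · rintro x y rfl rfl; rw [add_zero]
      · intro l a
        rw [tmul_eq, Subsingleton.elim a 0, em_zero, smul_zero]
    rw [h1 x, map_zero]
  · obtain ⟨l, hl, hl1⟩ := exists_tr_hodge T X
    refine gr_induction ((CW T).isInternal X)
      (p := fun x => (CW T).tr X (gz T k X x) = (CW T).tr X x) ?_ ?_ x
    · intro i x hx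
      by_cases hi : i = 2 * X.dim
      · subst hi
        have h1 : (CW T).tr X (em T.W ℂ l) = 1 := by
          rw [em_tr, hl1]; exact map_one (algebraMap T.W.K ℂ)
        have h2 := top_eq (W := CW T) (em_gr hl.1) h1 hx
        rw [h2, map_smul, gz_hodge k hl]
      · rw [(CW T).tr_eq_zero hx hi, (CW T).tr_eq_zero (gz_gr k hx) hi]
    · intro a b ha hb; rw [map_add, map_add, map_add, ha, hb]

lemma gz_one (k : ℤ) : gz T k X 1 = 1 := gz_fix k ((SC T).one X)

/-- The automorphism `2 ^ (k (p - q))`. -/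
noncomputable def gze (T : HodgeTheory ops) (k : ℤ) (X : 𝒱.Obj) :
    (CW T).H X ≃ₐ[(CW T).K] (CW T).H X where
  toFun := gz T k X
  invFun := gz T (-k) X
  left_inv x := by
    rw [← gz_add, neg_add_cancel, gz_zero]
  right_inv x := by
    rw [← gz_add, add_neg_cancel, gz_zero]
  map_mul' := gz_mul k
  map_add' := map_add (gz T k X)
  commutes' r := by
    rw [Algebra.algebraMap_eq_smul_one, map_smul, gz_one]

lemma gze_apply (k : ℤ) (x : (CW T).H X) : gze T k X x = gz T k X x := rfl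

/-- The action of `ℤ` given by the Hodge decomposition. -/
noncomputable def hodgeAction (T : HodgeTheory ops) (X : 𝒱.Obj) : GaloisAction T.W X where
  L := ℂ
  field := inferInstance
  alg := T.alg
  emb := ⟨RingHom.id ℂ⟩
  Γ := Multiplicative ℤ
  group := inferInstance
  χ := 1
  ρ n :=
    { toFun := fun g => gze T (Multiplicative.toAdd g) (pw X n)
      map_one' := by
        apply AlgEquiv.ext
        intro x
        exact gz_zero x
      map_mul' := fun g h => by
        apply AlgEquiv.ext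
        intro x
        exact gz_add _ _ x }
  degree g n i x hx := gz_gr _ hx
  trace g n x := by
    rw [MonoidHom.one_apply, Units.val_one, one_pow, one_mul]
    exact tr_gz _ x
  proj g n p _ x := gz_map _ p x
  motivated g n j c hc := by
    rw [MonoidHom.one_apply, Units.val_one, one_pow, one_smul]
    exact gz_hodge _ (IsMotivated.hodge hc)

/-- A rational class which is a Tate class for the action given by the Hodge decomposition is a Hodge
class. -/
lemma isHodge_of_tate {n j : ℕ} {c : T.W.H (pw X n)}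
    (h : (hodgeAction T X).IsTate n j (ext T.W ℂ c)) : IsHodge T (pw X n) j c := by
  obtain ⟨hc, Δ, hΔ, h⟩ := h
  have hc' : c ∈ T.W.gr (pw X n) (2 * j) := mem_of_em_mem (L := ℂ) hc
  refine ⟨hc', ?_⟩
  have key : ∀ Δ : Subgroup (Multiplicative ℤ),
      (Multiplicative.ofAdd (1 : ℤ)) ^ Δ.index ∈ Δ := fun Δ => Subgroup.pow_index_mem Δ _
  have h1 : (Multiplicative.ofAdd (1 : ℤ)) ^ Δ.index ∈ Δ := key Δ
  have h2 := h _ h1
  have h3 : Multiplicative.toAdd ((Multiplicative.ofAdd (1 : ℤ)) ^ Δ.index) = (Δ.index : ℤ) := by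
    rw [toAdd_pow]
    simp
  have h4 : gz T (Δ.index : ℤ) (pw X n) (em T.W ℂ c) = em T.W ℂ c := by
    rw [← h3]
    refine Eq.trans h2 ?_
    change ((1 : Multiplicative ℤ →* (CW T).Kˣ) _ : (CW T).K) ^ j • em T.W ℂ c = em T.W ℂ c
    rw [MonoidHom.one_apply, Units.val_one, one_pow, one_smul]
  exact pq_of_fixz (by exact_mod_cast hΔ.index_ne_zero) (T.dec.span hc') h4

/-- The classes which are Tate classes for all actions. -/
def Uni (T : HodgeTheory ops) (X : 𝒱.Obj) (n : ℕ) : Submodule T.W.K (T.W.H (pw X n)) where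
  carrier := {x | ∀ G : GaloisAction T.W X, em T.W G.L x ∈ G.act.inv n}
  add_mem' {a b} ha hb G := by
    rw [em_add]
    exact Submodule.add_mem _ (ha G) (hb G)
  zero_mem' G := by
    rw [em_zero]
    exact Submodule.zero_mem _
  smul_mem' r a ha G := by
    rw [em_smul]
    exact Submodule.smul_mem _ _ (ha G)

lemma F_le_Uni (n : ℕ) : F T X n ≤ Uni T X n := fun _ hx G => F_le_inv G hx

lemma C_le_Uni (n : ℕ) : (motPred T.W).sys.C (pw X n) ≤ Uni T X n :=
  (C_le_F n).trans (F_le_Uni n)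

lemma Uni_stab : (motPred T.W).sys.Stab X (Uni T X) := by
  intro m n f hf x hx G
  obtain ⟨z, hz, rfl⟩ := Sys.mem_Op.1 hf
  have h1 : em T.W G.L (T.W.corr z x) = G.V.corr (em T.W G.L z) (em T.W G.L x) :=
    (emR T.W G.L).corr z x
  rw [h1]
  exact G.act.stab m n _ (Sys.Op.corr (em_mem_base hz)) _ (hx G)

lemma Uni_even {n : ℕ} {x : T.W.H (pw X n)} (hx : x ∈ Uni T X n) : x ∈ PH T.W (pw X n) 0 :=
  even_of_em (hx (hodgeAction T X)).1

lemma Uni_proj {n : ℕ} {x : T.W.H (pw X n)} (hx : x ∈ Uni T X n) (i : ℕ) :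
    H914.proj (T.W.isInternal (pw X n)) i x ∈ Uni T X n := by
  intro G
  rw [em_proj]
  exact G.act.proj_mem (hx G) i

/-- The homogeneous members. -/
lemma mem_Uni_iff {n j : ℕ} {x : T.W.H (pw X n)} :
    (x ∈ T.W.gr (pw X n) (2 * j) ∧ x ∈ Uni T X n) ↔
      ∀ G : GaloisAction T.W X, G.IsTate n j (ext T.W G.L x) := by
  constructor
  · rintro ⟨hj, hx⟩ G
    exact G.isTate_iff.2 ⟨em_gr hj, hx G⟩
  · intro h
    exact ⟨mem_of_em_mem (L := ℂ) (h (hodgeAction T X)).1, fun G => (G.isTate_iff.1 (h G)).2⟩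

lemma Uni_isHodge {n j : ℕ} {x : T.W.H (pw X n)} (hx : x ∈ Uni T X n)
    (hj : x ∈ T.W.gr (pw X n) (2 * j)) : IsHodge T (pw X n) j x :=
  isHodge_of_tate (mem_Uni_iff.1 ⟨hj, hx⟩ (hodgeAction T X))

/-- The space is spanned by the homogeneous members. -/
lemma Uni_eq_span (n : ℕ) : Uni T X n = Submodule.span T.W.K
    {x | ∃ j, ∀ G : GaloisAction T.W X, G.IsTate n j (ext T.W G.L x)} := by
  apply le_antisymm
  · intro x hx
    rw [← sum_proj_eq T.W x]
    refine Submodule.sum_mem _ fun i _ => ?_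
    rcases Nat.even_or_odd' i with ⟨j, rfl | rfl⟩
    · exact Submodule.subset_span ⟨j, mem_Uni_iff.1
        ⟨H914.proj_mem (T.W.isInternal _) _ x, Uni_proj hx _⟩⟩
    · rw [proj_odd (Uni_even hx) (by omega)]
      exact Submodule.zero_mem _
  · rw [Submodule.span_le]
    rintro x ⟨j, hx⟩
    exact (mem_Uni_iff.2 hx).2

lemma Uni_le_hodge (n : ℕ) : Uni T X n ≤ (hodgePred T).sys.C (pw X n) := by
  rw [Uni_eq_span, Submodule.span_le]
  rintro x ⟨j, hx⟩
  have h := mem_Uni_iff.2 hx
  exact ClassPred.sp_of (Q := hodgePred T) (Uni_isHodge h.2 h.1)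

end Pool.Agent.D0H78.MT
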