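import Pool.Agent.D0H78.MT.Gal2

/-!
# The group of operators given by the Hodge decomposition
-/

open CategoryTheory AlgebraicGeometry TensorProduct

universe u v w

namespace Pool.Agent.D0H78.MT

open Module
open Pool.Agent.H914 Pool.Agent.H914.VarClass Pool.Agent.H914.VarClass.Obj
  Pool.Agent.H914.WeilCohomology Pool.Agent.Y133.Half Pool.Agent.R920.MT Pool.Agent.Y121.AH

variable {k : Type u} [Field k] {𝒱 : VarClass k} {ops : CycleOps 𝒱} {T : HodgeTheory ops}
  {X Y : 𝒱.Obj}

/-- The operator `2 ^ (k (p - q))`. -/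
noncomputable def gz (T : HodgeTheory ops) (k : ℤ) (X : 𝒱.Obj) :
    Module.End (CW T).K ((CW T).H X) :=
  dia (isInternal T X) fun r => (2 : (CW T).K) ^ (k * (r.1 - r.2))

lemma gz_pq {k p q : ℤ} {x : (CW T).H X} (hx : x ∈ T.pq X p q) :
    gz T k X x = (2 : (CW T).K) ^ (k * (p - q)) • x :=
  dia_apply (isInternal T X) _ (i := (p, q)) hx

lemma gz_mul (k : ℤ) (x y : (CW T).H X) : gz T k X (x * y) = gz T k X x * gz T k X y := by
  refine pq_ind T (p := fun x => gz T k X (x * y) = gz T k X x * gz T k X y) ?_ ?_ ?_ x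
  · intro a b x hx
    refine pq_ind T (p := fun y => gz T k X (x * y) = gz T k X x * gz T k X y) ?_ ?_ ?_ y
    · intro c d y hy
      rw [gz_pq hx, gz_pq hy, gz_pq (T.dec.mul hx hy), smul_mul_smul_comm,
        ← zpow_add₀ two_ne]
      congr 2
      ring
    · intro y z hy hz; rw [mul_add, map_add, hy, hz, map_add, mul_add]
    · rw [mul_zero, map_zero, mul_zero]
  · intro x z hx hz; rw [add_mul, map_add, hx, hz, map_add, add_mul]
  · rw [zero_mul, map_zero, zero_mul]

lemma gz_map (k : ℤ) (f : X ⟶ Y) (y : (CW T).H Y) :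
    gz T k X ((CW T).map f y) = (CW T).map f (gz T k Y y) := by
  refine pq_ind T (p := fun y => gz T k X ((CW T).map f y) = (CW T).map f (gz T k Y y))
    ?_ ?_ ?_ y
  · intro a b y hy
    rw [gz_pq hy, gz_pq (T.dec.map f hy), map_smul]
  · intro y z hy hz; rw [map_add, map_add, hy, hz, map_add, map_add]
  · rw [map_zero, map_zero, map_zero, map_zero]

lemma gz_push (k : ℤ) (f : X ⟶ Y) (x : (CW T).H X) :
    gz T k Y ((CW T).push f x) = (CW T).push f (gz T k X x) := by
  refine pq_ind T (p := fun x => gz T k Y ((CW T).push f x) = (CW T).push f (gz T k X x))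
    ?_ ?_ ?_ x
  · intro a b x hx
    rw [gz_pq hx, gz_pq (T.dec.push f hx), map_smul]
    congr 2
    ring
  · intro y z hy hz; rw [map_add, map_add, hy, hz, map_add, map_add]
  · rw [map_zero, map_zero, map_zero, map_zero]

lemma gz_hodge (k : ℤ) {j : ℕ} {c : T.W.H X} (hc : IsHodge T X j c) :
    gz T k X (em T.W ℂ c) = em T.W ℂ c := by
  rw [gz_pq hc.2, sub_self, mul_zero, zpow_zero, one_smul]

lemma gz_gr (k : ℤ) {i : ℕ} {x : (CW T).H X} (hx : x ∈ (CW T).gr X i) :
    gz T k X x ∈ (CW T).gr X i := by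
  refine gr_ind (p := fun x => gz T k X x ∈ (CW T).gr X i) ?_ ?_ ?_ hx
  · rw [map_zero]; exact Submodule.zero_mem _
  · intro x y hx hy
    rw [map_add]; exact Submodule.add_mem _ hx hy
  · intro l a ha
    rw [map_smul]
    refine Submodule.smul_mem _ _ ?_
    refine Submodule.iSup_induction (fun r : {r : ℤ × ℤ // r.1 + r.2 = i} => T.pq X r.1.1 r.1.2)
      (motive := fun x => gz T k X x ∈ (CW T).gr X i) (T.dec.span ha) ?_ ?_ ?_
    · intro r x hx
      rw [gz_pq hx]
      exact Submodule.smul_mem _ _ (T.dec.le X r.2 hx)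
    · rw [map_zero]; exact Submodule.zero_mem _
    · intro x y hx hy; rw [map_add]; exact Submodule.add_mem _ hx hy

lemma gz_zero (x : (CW T).H X) : gz T 0 X x = x := by
  refine pq_ind T (p := fun x => gz T 0 X x = x) ?_ ?_ ?_ x
  · intro a b x hx
    rw [gz_pq hx, zero_mul, zpow_zero, one_smul]
  · intro y z hy hz; rw [map_add, hy, hz]
  · rw [map_zero]

lemma gz_add (k l : ℤ) (x : (CW T).H X) : gz T (k + l) X x = gz T k X (gz T l X x) := by
  refine pq_ind T (p := fun x => gz T (k + l) X x = gz T k X (gz T l X x)) ?_ ?_ ?_ x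
  · intro a b x hx
    rw [gz_pq hx, gz_pq hx, map_smul, gz_pq hx, smul_smul, ← zpow_add₀ two_ne]
    congr 2
    ring
  · intro y z hy hz; rw [map_add, hy, hz, map_add, map_add]
  · rw [map_zero, map_zero, map_zero]

/-- The motivated classes with complex coefficients. -/
noncomputable abbrev SC (T : HodgeTheory ops) : Sys (CW T) := (motPred T.W).sys.base ℂ

lemma gz_fix (k : ℤ) {x : (CW T).H X} (hx : x ∈ (SC T).C X) : gz T k X x = x := by
  refine base_ind (S := (motPred T.W).sys) (p := fun x => gz T k X x = x) ?_ ?_ ?_ hx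
  · rw [map_zero]
  · intro x y hx hy; rw [map_add, hx, hy]
  · intro l a ha
    rw [map_smul]
    congr 1
    refine ClassPred.sp_ind (Q := motPred T.W)
      (q := fun a => gz T k X (em T.W ℂ a) = em T.W ℂ a) ?_ ?_ ?_ ha
    · intro j a ha
      exact gz_hodge k (IsMotivated.hodge ha)
    · rw [em_zero, map_zero]
    · intro a b ha hb; rw [em_add, map_add, ha, hb]

/-- The group of operators given by the Hodge decomposition. -/
noncomputable def hact (T : HodgeTheory ops) (X : 𝒱.Obj) :
    Act (CW T) (SC T) X (Multiplicative ℤ) where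
  B g n := gz T (Multiplicative.toAdd g) (pw X n)
  one n x := gz_zero x
  mul g h n x := gz_add _ _ x
  deg g n i x hx := gz_gr _ hx
  fix g n c hc := gz_fix _ hc
  comm g m n f hf x := by
    obtain ⟨z, hz, rfl⟩ := Sys.mem_Op.1 hf
    rw [corr_apply, gz_push, gz_mul, gz_map, gz_fix _ hz, corr_apply]
  ext g m n x hx y hy := by
    rw [gl, gz_map, xp, gz_mul, gz_map, gz_map, gl, xp]

lemma two_zpow_ne' {k a : ℤ} (hk : k ≠ 0) (h : (2 : (CW T).K) ^ (k * a) = 1) : a = 0 := by
  rcases mul_eq_zero.1 (two_zpow_ne h) with h1 | h1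
  · exact absurd h1 hk
  · exact h1

/-- A class of even degree fixed by one operator is of type `(j, j)`. -/
lemma pq_of_fixz {k : ℤ} (hk : k ≠ 0) {j : ℕ} {x : (CW T).H X}
    (hx : x ∈ ⨆ r : {r : ℤ × ℤ // r.1 + r.2 = (2 * j : ℕ)}, T.pq X r.1.1 r.1.2)
    (h : gz T k X x = x) : x ∈ T.pq X j j := by
  classical
  set N : Module.End (CW T).K ((CW T).H X) := dia (isInternal T X) fun r =>
    if r.1 = r.2 then 0 else ((2 : (CW T).K) ^ (k * (r.1 - r.2)) - 1)⁻¹ with hN
  set E : Module.End (CW T).K ((CW T).H X) := dia (isInternal T X) fun r =>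
    if r.1 = r.2 then 1 else 0 with hE
  have h1 : ∀ x, N (gz T k X x) - N x + E x = x := by
    intro x
    refine pq_ind T (p := fun x => N (gz T k X x) - N x + E x = x) ?_ ?_ ?_ x
    · intro a b x hx
      rw [gz_pq hx, map_smul, hN, hE, dia_apply (isInternal T X) _ (i := (a, b)) hx,
        dia_apply (isInternal T X) _ (i := (a, b)) hx]
      by_cases hab : a = b
      · simp [hab]
      · simp only [if_neg hab, zero_smul, add_zero]
        have h2 : (2 : (CW T).K) ^ (k * (a - b)) - 1 ≠ 0 := by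
          rw [sub_ne_zero]
          intro h3
          exact hab (sub_eq_zero.1 (two_zpow_ne' hk h3))
        rw [smul_smul, ← sub_smul, ← sub_one_mul, mul_inv_cancel₀ h2, one_smul]
    · intro a b ha hb
      calc N (gz T k X (a + b)) - N (a + b) + E (a + b)
          = (N (gz T k X a) - N a + E a) + (N (gz T k X b) - N b + E b) := by
            simp only [map_add]; abel
        _ = a + b := by rw [ha, hb]
    · simp
  have h2 := h1 x
  rw [h, sub_self, zero_add] at h2
  rw [← h2]
  refine Submodule.iSup_induction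
    (fun r : {r : ℤ × ℤ // r.1 + r.2 = (2 * j : ℕ)} => T.pq X r.1.1 r.1.2)
    (motive := fun x => E x ∈ T.pq X j j) hx ?_ ?_ ?_
  · rintro ⟨⟨a, b⟩, hr⟩ x hx
    rw [hE, dia_apply (isInternal T X) _ (i := (a, b)) hx]
    by_cases hab : a = b
    · subst hab
      have h3 : a = j := by
        have h4 : a + a = ((2 * j : ℕ) : ℤ) := hr
        push_cast at h4
        omega
      subst h3
      simpa using hx
    · simp [hab]
  · rw [map_zero]; exact Submodule.zero_mem _
  · intro x y hx hy; rw [map_add]; exact Submodule.add_mem _ hx hy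

/-- Rational classes which are fixed by a subgroup of finite index are Hodge classes. -/
lemma isHodge_of_inv {n j : ℕ} {c : T.W.H (pw X n)} (hc : c ∈ T.W.gr (pw X n) (2 * j))
    (h : em T.W ℂ c ∈ (hact T X).inv n) : IsHodge T (pw X n) j c := by
  obtain ⟨-, Δ, hΔ, h⟩ := h
  refine ⟨hc, ?_⟩
  have h1 : (Multiplicative.ofAdd (1 : ℤ)) ^ Δ.index ∈ Δ := Subgroup.pow_index_mem Δ _
  have h2 := h _ h1
  have h3 : Multiplicative.toAdd ((Multiplicative.ofAdd (1 : ℤ)) ^ Δ.index) = (Δ.index : ℤ) := by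
    rw [toAdd_pow]
    simp
  have h4 : gz T (Δ.index : ℤ) (pw X n) (em T.W ℂ c) = em T.W ℂ c := by
    rw [← h3]
    exact h2
  exact pq_of_fixz (by exact_mod_cast hΔ.index_ne_zero) (T.dec.span hc) h4

end Pool.Agent.D0H78.MT
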