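import Pool.Agent.D0H78.MT.LDefs
import Pool.Agent.D0H78.MT.Final

/-!
# Comparison of the definitions
-/

open CategoryTheory AlgebraicGeometry TensorProduct

universe u

namespace Pool.Agent.D0H78.MTL

open Pool.Agent.H914 Pool.Agent.H914.VarClass Pool.Agent.H914.VarClass.Obj
  Pool.Agent.H914.WeilCohomology Pool.Agent.R920.MT Pool.Agent.Y121.AHS
open Pool.Agent.Y133.Half (pw)

variable {k : Type u} [Field k] {𝒱 : VarClass k} {ops : CycleOps 𝒱}
  {W : WeilCohomology.{u, 0} ops} {X : 𝒱.Obj}

lemma isProj_iff {n : ℕ} {p : pw X n ⟶ X} : MT.IsProj X n p ↔ IsProj X n p := by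
  constructor
  · intro h
    induction h with
    | one => exact IsProj.one
    | last n => exact IsProj.last n
    | step n p _ ih => exact IsProj.step n p ih
  · intro h
    induction h with
    | one => exact MT.IsProj.one
    | last n => exact MT.IsProj.last n
    | step n p _ ih => exact MT.IsProj.step n p ih

/-- From the simplified to the full structure. -/
noncomputable def toG (G : GaloisAction W X) : MT.GaloisAction W X where
  L := G.L
  field := G.field
  alg := G.alg
  emb := G.emb
  Γ := G.Γ
  group := G.group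
  χ := (G.χ.toHomUnits : G.Γ →* G.Lˣ)
  ρ n :=
    { toFun := fun g =>
        { toFun := fun x => G.ρ g n x
          invFun := fun x => G.ρ g⁻¹ n x
          left_inv := fun x => by
            have h := (G.mul g⁻¹ g n x).symm
            rw [inv_mul_cancel, G.one] at h
            exact h
          right_inv := fun x => by
            have h := (G.mul g g⁻¹ n x).symm
            rw [mul_inv_cancel, G.one] at h
            exact h
          map_mul' := (G.geom g n).1.2.2.2
          map_add' := (G.geom g n).1.1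
          commutes' := fun r => by
            have h1 := (G.geom g n).1.2.1 r (extEm W.K G.L 1)
            rw [(G.geom g n).1.2.2.1] at h1
            rw [Algebra.algebraMap_eq_smul_one]
            exact h1 }
      map_one' := by
        apply AlgEquiv.ext
        intro x
        exact G.one n x
      map_mul' := fun g h => by
        apply AlgEquiv.ext
        intro x
        exact G.mul g h n x }
  degree g n i x hx := (G.geom g n).2.1 i x hx
  trace g n x := (G.geom g n).2.2.1 x
  proj g n p hp x := by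
    have h1 := G.proj g n p (isProj_iff.1 hp) x
    have h2 := map_eq W G.L p x
    have h3 := map_eq W G.L p (G.ρ g 0 x)
    calc _ = (show (baseW W G.L).H (pw X n) from G.ρ g n (mapL p x)) :=
          congrArg (fun y => (show (baseW W G.L).H (pw X n) from G.ρ g n y)) h2
      _ = (show (baseW W G.L).H (pw X n) from mapL p (G.ρ g 0 x)) := h1
      _ = _ := h3.symm
  motivated g n j c hc := (G.geom g n).2.2.2 j c hc

/-- From the full to the simplified structure. -/
noncomputable def ofG (G : MT.GaloisAction W X) : GaloisAction W X where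
  L := G.L
  field := G.field
  alg := G.alg
  emb := G.emb
  Γ := G.Γ
  group := G.group
  χ := ((Units.coeHom (baseW W G.L).K).comp G.χ : G.Γ →* (baseW W G.L).K)
  ρ g n x := G.ρ n g x
  one n x := by
    have h := G.ρ n |>.map_one
    exact congrArg (fun f : (baseW W G.L).H (pw X n) ≃ₐ[(baseW W G.L).K]
      (baseW W G.L).H (pw X n) => f x) h
  mul g h n x := by
    have h := (G.ρ n).map_mul g h
    exact congrArg (fun f : (baseW W G.L).H (pw X n) ≃ₐ[(baseW W G.L).K]
      (baseW W G.L).H (pw X n) => f x) h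
  geom g n := ⟨⟨fun x y => map_add (G.ρ n g) (show (baseW W G.L).H (pw X n) from x) y,
    fun l x => map_smul (G.ρ n g) (show (baseW W G.L).K from l)
      (show (baseW W G.L).H (pw X n) from x), map_one (G.ρ n g), fun x y => map_mul (G.ρ n g)
    (show (baseW W G.L).H (pw X n) from x) (show (baseW W G.L).H (pw X n) from y)⟩,
    fun i x hx => G.degree g n i x hx, fun x => G.trace g n x, fun j c hc => G.motivated g n j c hc⟩
  proj g n p hp x := by
    have h1 := G.proj g n p (isProj_iff.2 hp) x
    have h2 := map_eq W G.L p x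
    have h3 := map_eq W G.L p (show HL W G.L X from G.ρ 0 g x)
    calc _ = (show HL W G.L (pw X n) from G.ρ n g ((baseW W G.L).map p x)) :=
          congrArg (fun y => (show HL W G.L (pw X n) from G.ρ n g y)) h2.symm
      _ = (show HL W G.L (pw X n) from (baseW W G.L).map p (G.ρ 0 g x)) := h1
      _ = _ := h3

lemma toG_isTate (G : GaloisAction W X) {n j : ℕ} {x : Ext W.K G.L (W.H (pw X n))} :
    (toG G).IsTate n j x ↔ G.IsTate n j x := Iff.rfl

lemma ofG_isTate (G : MT.GaloisAction W X) {n j : ℕ} {x : G.V.H (pw X n)} :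
    (ofG G).IsTate n j x ↔ G.IsTate n j x := Iff.rfl

lemma isUniversal_iff {n j : ℕ} {c : W.H (pw X n)} :
    MT.IsUniversal W X n j c ↔ IsUniversal W X n j c :=
  ⟨fun h G => (toG_isTate G).1 (h (toG G)), fun h G => (ofG_isTate G).1 (h (ofG G))⟩

lemma tateDim_eq (G : GaloisAction W X) (n : ℕ) : (toG G).tateDim n = G.tateDim n := rfl

lemma tateAre_iff (G : GaloisAction W X) {P : ∀ n, ℕ → W.H (pw X n) → Prop} :
    (toG G).TateAre P ↔ G.TateAre P := Iff.rfl

/-- **The index law for Hodge and Tate classes over the motivated classes.** -/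
theorem main (T : HodgeTheory ops) (X : 𝒱.Obj) [Nontrivial (T.W.H X)] (h u m : ℕ → ℕ)
    (hh : ∀ n, h n = spanDim T.W.K (Hodge T X n)) (hu : ∀ n, u n = spanDim T.W.K (Universal T X n))
    (hm : ∀ n, m n = spanDim T.W.K (Motivated T X n)) :
    ∃ c N : ℕ∞, 1 ≤ c ∧ HasLimit u m c ∧ HasLimit h m N ∧ (N = c ∨ N = ⊤) ∧
      Imply (Motivated T X) (Universal T X) ∧ Imply (Universal T X) (Hodge T X) ∧
      (c = 1 ↔ Imply (Universal T X) (Motivated T X)) ∧
      (N = 1 ↔ Imply (Hodge T X) (Motivated T X)) ∧
      (N ≠ ⊤ → Imply (Hodge T X) (Universal T X)) ∧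
      ∀ G : GaloisAction T.W X, ∃ N' : ℕ∞, HasLimit G.tateDim m N' ∧ (N' = c ∨ N' = ⊤) ∧
        (N' = 1 ↔ G.TateAre (Motivated T X)) ∧
        (N' ≠ ⊤ → G.TateAre (Universal T X)) ∧
        (N ≠ ⊤ → N' ≠ ⊤ → G.TateAre (Hodge T X)) ∧
        (N ≠ ⊤ → N' = ⊤ → HasLimit G.tateDim h ⊤) := by
  have : Nontrivial ((toH T).W.H X) := ‹Nontrivial (T.W.H X)›
  have hiff : ∀ n j x, Universal T X n j x ↔ Pool.Agent.D0H78.MT.IsUniversal T.W X n j x :=
    fun n j x => isUniversal_iff.symm
  have hU : Universal T X = Pool.Agent.D0H78.MT.IsUniversal T.W X := by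
    funext n j x
    exact propext (hiff n j x)
  rw [hU] at hu ⊢
  obtain ⟨c, N, h1, h2, h3, h4, h5, h6, h7, -, h8, h9, h10⟩ :=
    Pool.Agent.D0H78.MT.main (toH T) X h u m hh hu hm
  refine ⟨c, N, h1, h2, h3, h4, h5, h6, h7, h8, h9, fun G => ?_⟩
  obtain ⟨N', k1, k2, k3, k4, -, k5, k6, -⟩ := h10 (toG G)
  exact ⟨N', k1, k2, k3, fun h => (k4 h).1, k5, k6⟩

end Pool.Agent.D0H78.MTL
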