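import Pool.Agent.R920.MT.Defs
import Pool.Agent.Y121.AHS.Defs
import Pool.Agent.Y133.Half.PwDefs

/-!
# Tate classes on the powers of a variety with a Hodge theory: definitions
-/

open CategoryTheory AlgebraicGeometry Filter Topology

open scoped ENNReal

universe u

namespace Pool.Agent.D0H78.MTL

open Pool.Agent.H914 Pool.Agent.H914.VarClass Pool.Agent.H914.VarClass.Obj
  Pool.Agent.H914.WeilCohomology Pool.Agent.R920.MT Pool.Agent.Y121.AHS
open Pool.Agent.Y133.Half (pw)

/-- The quotients `t n / s n` converge to `N`, an element of `ℕ ∪ {∞}`. -/
def HasLimit (t s : ℕ → ℕ) (N : ℕ∞) : Prop :=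
  Tendsto (fun n => (t n : ℝ≥0∞) / s n) atTop (𝓝 (N : ℝ≥0∞))

/-- The dimension of the subspace spanned by the elements with one of the properties `P j`. -/
noncomputable def spanDim (K : Type) {A : Type} [Field K] [AddCommGroup A] [Module K A]
    (P : ℕ → A → Prop) : ℕ :=
  Set.finrank K {x | ∃ j, P j x}

section Ext

variable {K L A : Type} [Field K] [Field L] [Algebra K L] [Ring A] [Algebra K A]

/-- The map is a homomorphism of `L`-algebras. -/
def IsHom (f : Ext K L A → Ext K L A) : Prop :=
  (∀ x y, f (x + y) = f x + f y) ∧ (∀ l x, f (extSm K L l x) = extSm K L l (f x)) ∧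
    f (extEm K L 1) = extEm K L 1 ∧ ∀ x y, f (extMul K L x y) = extMul K L (f x) (f y)

/-- The map `f` respects the degrees. -/
def RespDeg (gr : ℕ → Submodule K A) (f : Ext K L A → Ext K L A) : Prop :=
  ∀ i, ∀ x ∈ extSub K L (gr i), f x ∈ extSub K L (gr i)

/-- The map `f` multiplies the linear form `tr` by `c`. -/
def RespForm (tr : A →ₗ[K] K) (c : L) (f : Ext K L A → Ext K L A) : Prop :=
  ∀ x, extForm K L tr (f x) = c * extForm K L tr x

/-- The map `f` multiplies the elements with the property `P j` by `c ^ j`. -/
def RespBy (P : ℕ → A → Prop) (c : L) (f : Ext K L A → Ext K L A) : Prop :=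
  ∀ j a, P j a → f (extEm K L a) = extTw K L c j (extEm K L a)

/-- The map `f` is a homomorphism of `L`-algebras, which respects the degrees and multiplies the form
`tr` by `c ^ d` and the elements with the property `P j` by `c ^ j`. -/
def IsGeometric (gr : ℕ → Submodule K A) (tr : A →ₗ[K] K) (P : ℕ → A → Prop) (d : ℕ) (c : L)
    (f : Ext K L A → Ext K L A) : Prop :=
  IsHom f ∧ RespDeg gr f ∧ RespForm tr (c ^ d) f ∧ RespBy P c f

/-- The element `x` of the extension of the subspace `D` is multiplied by `χ g ^ j` by all elements
`g` of a subgroup of finite index. -/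
def IsTateIn {Γ : Type} [Group Γ] (χ : Γ → L) (ρ : Γ → Ext K L A → Ext K L A) (D : Submodule K A)
    (j : ℕ) (x : Ext K L A) : Prop :=
  x ∈ extSub K L D ∧ ∃ Δ : Subgroup Γ, Δ.FiniteIndex ∧ ∀ g ∈ Δ, ρ g x = extTw K L (χ g) j x

/-- The element `x` is a linear combination, with coefficients in `L`, of elements `1 ⊗ c` where `c`
has the property `P`. -/
def IsCombo (P : A → Prop) (x : Ext K L A) : Prop :=
  x ∈ Submodule.span L {y | ∃ c, P c ∧ extEm K L c = y}

end Ext

variable {k : Type u} [Field k] {𝒱 : VarClass k} {ops : CycleOps 𝒱}

/-- The morphism is one of the projections of the product `pw X n` of `n + 1` copies of `X` to its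
factors. -/
inductive IsProj (X : 𝒱.Obj) : (n : ℕ) → (pw X n ⟶ X) → Prop
  | one : IsProj X 0 (𝟙 X)
  | last (n : ℕ) : IsProj X (n + 1) (snd (pw X n) X)
  | step (n : ℕ) (p : pw X n ⟶ X) : IsProj X n p → IsProj X (n + 1) (fst (pw X n) X ≫ p)

/-- Families of maps `f n` of the cohomology with coefficients in `L` of the products of `n + 1`
copies of `X`. -/
abbrev Maps (W : WeilCohomology.{u, 0} ops) (L : Type) [Field L] [Algebra W.K L] (X : 𝒱.Obj) :=
  ∀ n, Ext W.K L (W.H (pw X n)) → Ext W.K L (W.H (pw X n))

/-- The maps are compatible with the pull-backs for the projections to the factors. -/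
def RespProj {W : WeilCohomology.{u, 0} ops} {L : Type} [Field L] [Algebra W.K L] {X : 𝒱.Obj}
    (f : Maps W L X) : Prop :=
  ∀ (n : ℕ) (p : pw X n ⟶ X), IsProj X n p →
    ∀ x, f n (extHom W.K L (W.map p) x) = extHom W.K L (W.map p) (f 0 x)

/-- An action of a group `Γ` (the Galois group of a finitely generated field of definition of `X`) on
the cohomology, with coefficients extended to a field `L` which can be embedded into the complex
numbers (`L = ℚ_ℓ`, by the comparison isomorphism with `ℓ`-adic cohomology), of all powers of `X`:
the group acts by automorphisms of the graded algebras, compatibly with the projections to the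
factors, and multiplies the orientations and the motivated classes by powers of a character `χ` (the
inverse of the cyclotomic character: the Tate twists are suppressed). All the motivated classes on
the powers of `X` are supposed to be defined over the ground field. -/
structure GaloisAction (W : WeilCohomology.{u, 0} ops) (X : 𝒱.Obj) where
  /-- the field of coefficients -/
  L : Type
  [field : Field L]
  [alg : Algebra W.K L]
  emb : Nonempty (L →+* ℂ)
  /-- the group -/
  Γ : Type
  [group : Group Γ]
  /-- the character -/
  χ : Γ →* L
  /-- the action on the cohomology of the product of `n + 1` copies of `X` -/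
  ρ : Γ → Maps W L X
  one : ∀ n x, ρ 1 n x = x
  mul : ∀ g h n x, ρ (g * h) n x = ρ g n (ρ h n x)
  geom : ∀ g n, IsGeometric (W.gr (pw X n)) (W.tr (pw X n)) (IsMotivated W (pw X n))
    (pw X n).dim (χ g) (ρ g n)
  proj : ∀ g, RespProj (ρ g)

attribute [instance] GaloisAction.field GaloisAction.alg GaloisAction.group

namespace GaloisAction

variable {W : WeilCohomology.{u, 0} ops} {X : 𝒱.Obj} (G : GaloisAction W X)

/-- The Tate classes of codimension `j` on the product of `n + 1` copies of `X`: the classes of
degree `2 j` which are multiplied by `χ g ^ j` by all elements `g` of a subgroup of finite index. -/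
def IsTate (n j : ℕ) : Ext W.K G.L (W.H (pw X n)) → Prop :=
  IsTateIn G.χ (fun g => G.ρ g n) (W.gr (pw X n) (2 * j)) j

/-- The number of linearly independent Tate classes (of all codimensions) on the product of `n + 1`
copies of `X`. -/
noncomputable def tateDim (n : ℕ) : ℕ := spanDim G.L (G.IsTate n)

/-- The Tate classes are exactly the linear combinations, with coefficients in `L`, of the classes
`1 ⊗ c` where `c` has the property `P` (`P n j c` for classes of codimension `j` on the product of
`n + 1` copies of `X`). -/
def TateAre (P : ∀ n, ℕ → W.H (pw X n) → Prop) : Prop :=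
  ∀ n j x, G.IsTate n j x ↔ IsCombo (P n j) x

end GaloisAction

/-- The class `c` of codimension `j` on the product of `n + 1` copies of `X` is universal: it is a
Tate class for all actions, of all groups and with all coefficients, in the sense of
`GaloisAction`. These actions are the homomorphisms to the groups of points of the motivic Galois
group of `X`, and the universal classes are the classes which are fixed by its identity
component. -/
def IsUniversal (W : WeilCohomology.{u, 0} ops) (X : 𝒱.Obj) (n j : ℕ) (c : W.H (pw X n)) : Prop :=
  ∀ G : GaloisAction W X, G.IsTate n j (extEm W.K G.L c)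

section Classes

variable (T : HodgeTheory ops) (X : 𝒱.Obj) (n j : ℕ) (x : T.W.H (pw X n))

/-- The Hodge classes of degree `2 j` on the product of `n + 1` copies of `X`. -/
def Hodge : Prop := IsHodge T (pw X n) j x

/-- The motivated classes of degree `2 j` on the product of `n + 1` copies of `X`. -/
def Motivated : Prop := IsMotivated T.W (pw X n) j x

/-- The universal classes of degree `2 j` on the product of `n + 1` copies of `X`: the classes which
are Tate classes for all actions of groups which respect the motivated classes. -/
def Universal : Prop := IsUniversal T.W X n j x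

end Classes

/-- The classes on the powers of `X` with the property `P` have the property `Q`. -/
def Imply {A : ℕ → Type} (P Q : ∀ n, ℕ → A n → Prop) : Prop := ∀ n j x, P n j x → Q n j x

end Pool.Agent.D0H78.MTL
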