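import Pool.Agent.D0H78.MT.HAct

/-!
# The index law for Hodge and Tate classes over the motivated classes
-/

open CategoryTheory AlgebraicGeometry TensorProduct Filter Topology

open scoped ENNReal

universe u v w

namespace Pool.Agent.D0H78.MT

open Module
open Pool.Agent.H914 Pool.Agent.H914.VarClass Pool.Agent.H914.VarClass.Obj
  Pool.Agent.H914.WeilCohomology Pool.Agent.Y133.Half Pool.Agent.R920.MT Pool.Agent.Y121.AH

variable {k : Type u} [Field k] {𝒱 : VarClass k} {ops : CycleOps 𝒱}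

lemma HasIndex.unique {t s : ℕ → ℕ} {N N' : ℕ∞} (h : HasIndex t s N) (h' : HasIndex t s N') :
    N = N' := by
  have h1 := tendsto_nhds_unique h h'
  exact ENat.toENNReal_inj.1 h1

section Law

variable (T : HodgeTheory ops) (X : 𝒱.Obj) [Nontrivial (T.W.H X)]

/-- The index of the universal classes. -/
theorem uni_law : ∃ c : ℕ∞, 1 ≤ c ∧
    HasIndex (fun n => finrank T.W.K (Uni T X n)) (fun n => dimBy T.W (IsMotivated T.W) (pw X n))
      c ∧ (c = 1 ↔ ∀ n, Uni T X n = (motPred T.W).sys.C (pw X n)) ∧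
    (c ≠ ⊤ → ∃ (r : ℕ) (d : Fin r → Σ m, T.W.H (pw X m)), (r : ℕ∞) + 1 ≤ c ∧
      (∀ i, ∃ j, ∀ G : GaloisAction T.W X, G.IsTate (d i).1 j (ext T.W G.L (d i).2)) ∧
      ∀ n, Uni T X n = (motPred T.W).sys.genS X d n) := by
  obtain ⟨c, h1, h2, -, h4⟩ := Sys.stab_index (fun n => mot_nondeg T (pw X n)) (Uni_stab (T := T))
    (C_le_Uni (T := T) (X := X))
  refine ⟨c, h1, h2, h4, fun hc => ?_⟩
  exact Sys.ind_generators (fun n => mot_nondeg T (pw X n)) (Uni_stab (T := T))
    (C_le_Uni (T := T) (X := X)) h2 hc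
    (fun n => {x | ∃ j, ∀ G : GaloisAction T.W X, G.IsTate n j (ext T.W G.L x)}) Uni_eq_span

/-- The index of the Hodge classes. -/
theorem hodge_law {c : ℕ∞}
    (hc : HasIndex (fun n => finrank T.W.K (Uni T X n))
      (fun n => dimBy T.W (IsMotivated T.W) (pw X n)) c) : ∃ N : ℕ∞, 1 ≤ N ∧
    HasIndex (fun n => dimBy T.W (IsHodge T) (pw X n))
      (fun n => dimBy T.W (IsMotivated T.W) (pw X n)) N ∧ (N = c ∨ N = ⊤) ∧
    (N = 1 ↔ ∀ n j x, IsHodge T (pw X n) j x → IsMotivated T.W (pw X n) j x) ∧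
    (N ≠ ⊤ → ∀ n, (hodgePred T).sys.C (pw X n) = Uni T X n) := by
  obtain ⟨N, h1, h2, -, h4⟩ := Sys.stab_index (fun n => mot_nondeg T (pw X n))
    (Sys.stab_of_le (mot_le_hodge (T := T)) (X := X)) (fun n => mot_le_hodge _)
  have key : N ≠ ⊤ → ∀ n, (hodgePred T).sys.C (pw X n) = Uni T X n := fun hN n =>
    le_antisymm ((hodge_le_F h2 hN n).trans (F_le_Uni n)) (Uni_le_hodge n)
  refine ⟨N, h1, h2, ?_, ?_, key⟩
  · by_cases hN : N = ⊤
    · exact Or.inr hN
    · left
      have h5 : HasIndex (fun n => finrank T.W.K (Uni T X n))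
          (fun n => dimBy T.W (IsMotivated T.W) (pw X n)) N := by
        have h6 : (fun n => finrank T.W.K (Uni T X n)) =
            fun n => finrank T.W.K ((hodgePred T).sys.C (pw X n)) := by
          funext n
          rw [key hN n]
        rw [h6]
        exact h2
      exact HasIndex.unique h5 hc
  · rw [h4]
    exact forall_congr' fun n => ClassPred.sys_eq_iff (fun h => IsMotivated.hodge h) (pw X n)

variable {T X} (G : GaloisAction T.W X)

/-- The index of the Tate classes. -/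
theorem tate_law {c : ℕ∞}
    (hc : HasIndex (fun n => finrank T.W.K (Uni T X n))
      (fun n => dimBy T.W (IsMotivated T.W) (pw X n)) c) : ∃ N : ℕ∞, 1 ≤ N ∧
    HasIndex G.tateDim (fun n => dimBy T.W (IsMotivated T.W) (pw X n)) N ∧ (N = c ∨ N = ⊤) ∧
    (N = 1 ↔ ∀ n, G.act.inv n = G.SL.C (pw X n)) ∧
    (N ≠ ⊤ → ∀ n, G.act.inv n = Sys.bf G.L (Uni T X) n) := by
  have hnt : Nontrivial (G.V.H X) := Pool.Agent.Y129.nontrivial_base G.L
  obtain ⟨N, h1, h2, -, h4⟩ := Sys.stab_index (S := G.SL)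
    (fun n => (mot_nondeg T (pw X n)).base G.L) G.act.stab G.act.C_le
  have e1 : ∀ n, finrank G.V.K (G.SL.C (pw X n)) = dimBy T.W (IsMotivated T.W) (pw X n) :=
    fun n => Sys.finrank_base G.L (pw X n)
  have h2' : HasIndex G.tateDim (fun n => dimBy T.W (IsMotivated T.W) (pw X n)) N := by
    have h3 := h2
    rw [Sys.IsInd] at h3
    simp only [e1, finrank_inv] at h3
    exact h3
  have hle : ∀ n, Sys.bf G.L (Uni T X) n ≤ G.act.inv n := by
    intro n x hx
    refine base_induction (P := fun x : G.L ⊗[T.W.K] T.W.H (pw X n) => x ∈ G.act.inv n)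
      ?_ ?_ ?_ hx
    · exact Submodule.zero_mem _
    · intro x y hx hy; exact Submodule.add_mem _ hx hy
    · intro l a ha
      have h1 := tmul_eq (W := T.W) (L := G.L) l a
      have h2 := Submodule.smul_mem (G.act.inv n) (show G.V.K from l) (ha G)
      exact Eq.mpr (congrArg (fun x => x ∈ G.act.inv n) h1) h2
  have key : N ≠ ⊤ → ∀ n, G.act.inv n = Sys.bf G.L (Uni T X) n := by
    intro hN n
    refine le_antisymm ?_ (hle n)
    rw [inv_eq_bf G h2 hN n]
    exact Submodule.baseChange_mono G.L (F_le_Uni n)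
  refine ⟨N, h1, h2', ?_, h4, key⟩
  by_cases hN : N = ⊤
  · exact Or.inr hN
  · left
    have h5 : HasIndex (fun n => finrank T.W.K (Uni T X n))
        (fun n => dimBy T.W (IsMotivated T.W) (pw X n)) N := by
      have h6 : (fun n => finrank T.W.K (Uni T X n)) = G.tateDim := by
        funext n
        rw [← finrank_inv, key hN n, Sys.finrank_bf]
      rw [h6]
      exact h2'
    exact HasIndex.unique h5 hc

end Law

end Pool.Agent.D0H78.MT
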