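import Pool.Agent.D0H78.MT.Act
import Pool.Agent.Y121.AH.Span

/-!
# Semilinear realizations, and the extension of the coefficients of a group of operators
-/

open CategoryTheory AlgebraicGeometry TensorProduct

universe u v w

namespace Pool.Agent.D0H78.MT

open Module
open Pool.Agent.H914 Pool.Agent.H914.VarClass Pool.Agent.H914.VarClass.Obj
  Pool.Agent.H914.WeilCohomology Pool.Agent.Y133.Half
open Pool.Agent.Y121.AH (em psi kap psi_smul psi_gr psi_map psi_push psi_em psi_tmul tmul_eq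
  em_add em_zero em_smul em_mul em_map em_push em_gr ex tmul_ind)

variable {k : Type u} [Field k] {𝒱 : VarClass k} {ops : CycleOps 𝒱}

/-- A semilinear realization of the theory `W` in the theory `V`. -/
structure Rz (W V : WeilCohomology.{u, 0} ops) where
  /-- the homomorphism of the coefficients -/
  s : W.K →+* V.K
  /-- the homomorphisms -/
  E : ∀ X : 𝒱.Obj, W.H X →+* V.H X
  semi : ∀ (X : 𝒱.Obj) (r : W.K) (a : W.H X), E X (r • a) = s r • E X a
  deg : ∀ {X : 𝒱.Obj} {i : ℕ} {a : W.H X}, a ∈ W.gr X i → E X a ∈ V.gr X i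
  nat : ∀ {X Y : 𝒱.Obj} (f : X ⟶ Y) (b : W.H Y), E X (W.map f b) = V.map f (E Y b)
  push : ∀ {X Y : 𝒱.Obj} (f : X ⟶ Y) (a : W.H X), E Y (W.push f a) = V.push f (E X a)

section Rz

variable {W V : WeilCohomology.{u, 0} ops} (R : Rz W V) {X Y : 𝒱.Obj}

lemma Rz.even {b : ℕ} {x : W.H X} (hx : x ∈ PH W X b) : R.E X x ∈ PH V X b := by
  refine PH.ind (p := fun x => R.E X x ∈ PH V X b) ?_ ?_ ?_ hx
  · intro i hi x hx; exact PH.of' hi (R.deg hx)
  · rw [map_zero]; exact Submodule.zero_mem _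
  · intro x y hx hy; rw [map_add]; exact Submodule.add_mem _ hx hy

lemma Rz.xp (x : W.H X) (y : W.H Y) :
    R.E (X.prod Y) (Y133.Half.xp W x y) = Y133.Half.xp V (R.E X x) (R.E Y y) := by
  rw [Y133.Half.xp, map_mul, R.nat, R.nat, Y133.Half.xp]

lemma Rz.gl {m n : ℕ} (x : W.H (pw X m)) (y : W.H (pw X n)) :
    R.E (pw X (m + n + 1)) (MT.gl W x y) = MT.gl V (R.E _ x) (R.E _ y) := by
  rw [MT.gl, R.nat, R.xp, MT.gl]

lemma Rz.gp {n : ℕ} (x : W.H (pw X n)) :
    ∀ m, R.E (pw X (ix n m)) (MT.gp W x m) = MT.gp V (R.E _ x) m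
  | 0 => rfl
  | m + 1 => by
    have h := R.gl (MT.gp W x m) x
    rw [gp x m] at h
    exact h

lemma Rz.corr (z : W.H (X.prod Y)) (x : W.H X) :
    R.E Y (W.corr z x) = V.corr (R.E _ z) (R.E X x) := by
  rw [corr_apply, R.push, map_mul (R.E (X.prod Y)), R.nat, corr_apply]

variable {S : Sys W} {S' : Sys V}

/-- The images of generated classes are generated. -/
lemma Rz.genS (hS : ∀ Z : 𝒱.Obj, ∀ c ∈ S.C Z, R.E Z c ∈ S'.C Z) {r : ℕ}
    (c : Fin r → Σ n, W.H (pw X n)) {n : ℕ} {z : W.H (pw X n)} (hz : z ∈ S.genS X c n) :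
    R.E _ z ∈ S'.genS X (fun i => ⟨(c i).1, R.E _ (c i).2⟩) n := by
  classical
  have hsub : ∀ z ∈ S.genS X c n, R.E _ z ∈ S'.genS X (fun i => ⟨(c i).1, R.E _ (c i).2⟩) n := by
    intro z hz
    obtain ⟨s, hs, t, ht, rfl⟩ := Submodule.mem_sup.1 hz
    rw [map_add]
    refine Submodule.add_mem _ (Submodule.mem_sup_left (hS _ s hs)) (Submodule.mem_sup_right ?_)
    refine Submodule.iSup_induction _ (motive := fun t => R.E _ t ∈
      ⨆ i, (S'.Op (pw X (c i).1) (pw X n)).map (LinearMap.applyₗ (R.E _ (c i).2))) ht ?_ ?_ ?_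
    · rintro i _ ⟨f, hf, rfl⟩
      obtain ⟨w, hw, rfl⟩ := Sys.mem_Op.1 hf
      refine Submodule.mem_iSup_of_mem i ⟨V.corr (R.E _ w), Sys.Op.corr (hS _ w hw), ?_⟩
      exact (R.corr w (c i).2).symm
    · rw [map_zero]; exact Submodule.zero_mem _
    · intro a b ha hb; rw [map_add]; exact Submodule.add_mem _ ha hb
  exact hsub z hz

end Rz

section Ext

variable {W : WeilCohomology.{u, 0} ops} {L M : Type} [Field L] [Field M] [Algebra W.K L]
  [Algebra W.K M] {X Y : 𝒱.Obj} {S : Sys W}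

/-- The extension of the coefficients. -/
noncomputable def emR (W : WeilCohomology.{u, 0} ops) (L : Type) [Field L] [Algebra W.K L] :
    Rz W (baseW W L) where
  s := algebraMap W.K L
  E X := (Algebra.TensorProduct.includeRight : W.H X →ₐ[W.K] L ⊗[W.K] W.H X).toRingHom
  semi _ r a := em_smul r a
  deg ha := em_gr ha
  nat f b := (em_map f b).symm
  push f a := (em_push f a).symm

lemma emR_apply (x : W.H X) : (emR W L).E X x = em W L x := rfl

/-- The change of the coefficients. -/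
noncomputable def psiR (τ : L →ₐ[W.K] M) : Rz (baseW W L) (baseW W M) where
  s := kap W τ
  E X := psi W τ X
  semi X r a := psi_smul τ r a
  deg ha := psi_gr τ ha
  nat f b := psi_map τ f b
  push f a := psi_push τ f a

lemma em_mem_base {c : W.H X} (hc : c ∈ S.C X) : em W L c ∈ (S.base L).C X :=
  Submodule.tmul_mem_baseChange_of_mem _ hc

lemma base_ind {p : (baseW W L).H X → Prop} (h0 : p 0) (hadd : ∀ x y, p x → p y → p (x + y))
    (h : ∀ (l : (baseW W L).K) (a : W.H X), a ∈ S.C X → p (l • em W L a)) {x : (baseW W L).H X}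
    (hx : x ∈ (S.base L).C X) : p x := by
  refine base_induction (P := fun x : L ⊗[W.K] W.H X => p x) h0 hadd ?_ hx
  intro l a ha
  have h1 := tmul_eq (W := W) (L := L) l a
  exact Eq.mpr (congrArg p h1) (h l a ha)

lemma gr_ind {p : (baseW W L).H X → Prop} (h0 : p 0) (hadd : ∀ x y, p x → p y → p (x + y))
    {i : ℕ} (h : ∀ (l : (baseW W L).K) (a : W.H X), a ∈ W.gr X i → p (l • em W L a))
    {x : (baseW W L).H X} (hx : x ∈ (baseW W L).gr X i) : p x := by
  refine base_induction (P := fun x : L ⊗[W.K] W.H X => p x) h0 hadd ?_ hx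
  intro l a ha
  have h1 := tmul_eq (W := W) (L := L) l a
  exact Eq.mpr (congrArg p h1) (h l a ha)

lemma all_ind {p : (baseW W L).H X → Prop} (h0 : p 0) (hadd : ∀ x y, p x → p y → p (x + y))
    (h : ∀ (l : (baseW W L).K) (a : W.H X), p (l • em W L a)) (x : (baseW W L).H X) : p x := by
  refine tmul_ind (p := p) h0 hadd ?_ x
  intro l a
  rw [tmul_eq]
  exact h l a

/-- The even classes after the extension of the coefficients. -/
lemma PH_ind {p : (baseW W L).H X → Prop} (h0 : p 0) (hadd : ∀ x y, p x → p y → p (x + y)) {b : ℕ}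
    (h : ∀ (l : (baseW W L).K) (a : W.H X), a ∈ PH W X b → p (l • em W L a))
    {x : (baseW W L).H X} (hx : x ∈ PH (baseW W L) X b) : p x := by
  refine PH.ind (p := p) ?_ h0 hadd hx
  intro i hi x hx
  exact gr_ind h0 hadd (fun l a ha => h l a (PH.of' hi ha)) hx

lemma psi_mem_base (τ : L →ₐ[W.K] M) {x : (baseW W L).H X} (hx : x ∈ (S.base L).C X) :
    psi W τ X x ∈ (S.base M).C X := by
  refine base_ind (p := fun x => psi W τ X x ∈ (S.base M).C X) ?_ ?_ ?_ hx
  · rw [map_zero]; exact Submodule.zero_mem _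
  · intro x y hx hy; rw [map_add]; exact Submodule.add_mem _ hx hy
  · intro l a ha
    rw [psi_smul, psi_em]
    exact Submodule.smul_mem _ _ (em_mem_base ha)

lemma psi_injective (τ : L →ₐ[W.K] M) (X : 𝒱.Obj) : Function.Injective (psi W τ X) := by
  have h1 : Function.Injective
      ((LinearMap.rTensor (W.H X) τ.toLinearMap : L ⊗[W.K] W.H X →ₗ[W.K] M ⊗[W.K] W.H X)) :=
    Module.Flat.rTensor_preserves_injective_linearMap _ τ.injective
  intro x y hxy
  apply h1
  have h2 : ∀ z : L ⊗[W.K] W.H X, LinearMap.rTensor (W.H X) τ.toLinearMap z = psi W τ X z := by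
    intro z
    induction z using TensorProduct.induction_on with
    | zero => rw [map_zero]; exact (map_zero (psi W τ X)).symm
    | add a b ha hb =>
      rw [map_add, ha, hb]
      exact (map_add (psi W τ X) a b).symm
    | tmul l a =>
      rw [LinearMap.rTensor_tmul]
      exact (psi_tmul τ l a).symm
  rw [h2, h2]
  exact hxy

end Ext

end Pool.Agent.D0H78.MT
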